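import Pool.Agent.Y965.PS.Conv
import Pool.Agent.W41.Dens

set_option autoImplicit false

/-!
# Sets invariant under the Collatz map along the sequences `⌊n ^ c⌋`

Let `1 < c < 101/100`. Every set of integers invariant under the Collatz map has, along the sparse
sequence `⌊n ^ c⌋` (or `-⌊n ^ c⌋`), the natural density which it has among the positive (negative)
integers, uniformly in the set. In particular the conjecture for all integers follows from the
conjecture for the integers `± ⌊n ^ c⌋`.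

Method. Let `T` be the shortcut map, `2 ^ t ≈ N ^ 0.65`, and `F` constant on coalescing trajectories.
The fibres of `T ^ t` on `[1, N]` have about `N ^ 0.13` elements; by Cauchy-Schwarz the sum of
`F m e(k m ^ γ)`, `m ≤ N`, is bounded by sums over pairs `m, m + h` in one fibre. The pairs depend only
on `m` modulo `2 ^ t`, and `e(k (m ^ γ - (m + h) ^ γ))` is summed over `m ≡ r` modulo `2 ^ t` by the
inequality of Kusmin and Landau. This gives a power saving, more than the sparsity of the sequence.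
-/

namespace Pool.Agent.Results.MP_d02c56_nt.PiatetskiShapiro

open Filter Topology

/-- The Collatz map on the integers. -/
def C (x : ℤ) : ℤ := if x % 2 = 0 then x / 2 else 3 * x + 1

/-- The shortcut map. -/
def T (x : ℤ) : ℤ := if x % 2 = 0 then x / 2 else (3 * x + 1) / 2

/-- `S` is invariant under the Collatz map and its inverse. -/
def Invariant (S : Set ℤ) : Prop := ∀ x : ℤ, x ∈ S ↔ C x ∈ S

/-- Among the integers of sign `s` the set `S` has natural density `δ`. -/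
def HasDensity (s : ℤ) (S : Set ℤ) (δ : ℝ) : Prop :=
  Tendsto (fun N : ℕ => ({n : ℤ | 0 < s * n ∧ s * n ≤ N ∧ n ∈ S}.ncard : ℝ) / N) atTop (𝓝 δ)

/-- A bounded function on the integers that has the same value at any two integers whose
trajectories under the shortcut map are at some time at the same point. -/
def Synchronous (F : ℤ → ℝ) : Prop :=
  (∀ x, |F x| ≤ 1) ∧ ∀ (j : ℕ) (x y : ℤ), T^[j] x = T^[j] y → F x = F y

/-- The number of the `n` in `[1, X]` with `s ⌊n ^ c⌋ ∈ S`. -/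
noncomputable def count (s : ℤ) (c : ℝ) (S : Set ℤ) (X : ℕ) : ℕ :=
  {n : ℕ | 1 ≤ n ∧ n ≤ X ∧ s * ⌊(n : ℝ) ^ c⌋ ∈ S}.ncard

/-- The union of the five known cycles. -/
def Known : Finset ℤ := {1, 4, 2, -1, -2, -5, -14, -7, -20, -10, -17, -50, -25, -74, -37, -110,
  -55, -164, -82, -41, -122, -61, -182, -91, -272, -136, -68, -34, 0}

/-- The trajectory of `x` reaches one of the five known cycles. -/
def Reaches (x : ℤ) : Prop := ∃ k : ℕ, C^[k] x ∈ Known

open Pool.Agent.H499R2.ND Pool.Agent.W41 Pool.Agent.Y965.PS Finset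

theorem T_cases (x : ℤ) : T x = C x ∨ T x = C (C x) := by
  unfold T C
  by_cases h : x % 2 = 0
  · left; simp [h]
  · right
    have h2 : (3 * x + 1) % 2 = 0 := by omega
    simp [h, h2]

theorem inv_T {S : Set ℤ} (hS : Invariant S) (x : ℤ) : x ∈ S ↔ T x ∈ S := by
  rcases T_cases x with h | h
  · rw [h]; exact hS x
  · rw [h, ← hS, ← hS]

theorem inv_of {S : Set ℤ} (hS : Invariant S) : Inv 1 S := by
  intro x
  have e : Td 1 x = T x := by unfold Td T; rfl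
  rw [e]; exact inv_T hS x

theorem inv_iter {S : Set ℤ} (hS : Invariant S) (j : ℕ) : ∀ x : ℤ, x ∈ S ↔ T^[j] x ∈ S := by
  induction j with
  | zero => intro x; rfl
  | succ j ih => intro x; rw [Function.iterate_succ_apply, ← ih]; exact inv_T hS x

theorem T_side {s : ℤ} (hs : s = 1 ∨ s = -1) (x : ℤ) : T (s * x) = s * Tz s x := by
  unfold T Tz
  rcases hs with rfl | rfl <;> split_ifs <;> omega

theorem T_side_iter {s : ℤ} (hs : s = 1 ∨ s = -1) (j : ℕ) : ∀ x : ℤ, T^[j] (s * x) = s * (Tz s)^[j] x := by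
  induction j with
  | zero => intro x; rfl
  | succ j ih => intro x; rw [Function.iterate_succ_apply, Function.iterate_succ_apply, T_side hs, ih]

theorem sync_side {s : ℤ} (hs : s = 1 ∨ s = -1) {F : ℤ → ℝ} (hF : Synchronous F) :
    Sync s (fun x => F (s * x)) := by
  refine ⟨fun x => hF.1 _, fun j x y h => hF.2 j _ _ ?_⟩
  rw [T_side_iter hs, T_side_iter hs, h]

open Classical in
theorem sync_ind {S : Set ℤ} (hS : Invariant S) : Synchronous (fun x => if x ∈ S then 1 else 0) := by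
  refine ⟨fun x => by by_cases h : x ∈ S <;> simp [h], fun j x y h => ?_⟩
  have e : x ∈ S ↔ y ∈ S := by rw [inv_iter hS j x, inv_iter hS j y, h]
  simp only [e]

/-- the transfer inequality -/
theorem transfer {c : ℝ} (hc : 1 < c) (hc' : c < 101 / 100) : ∃ K : ℝ, 0 ≤ K ∧ ∀ s : ℤ, (s = 1 ∨ s = -1) →
    ∀ F : ℤ → ℝ, Synchronous F → ∀ X : ℕ, 1 ≤ X →
      |∑ n ∈ Finset.Icc 1 X, F (s * ⌊(n : ℝ) ^ c⌋)
        - ∑ m ∈ Finset.Icc 1 ⌊(X : ℝ) ^ c⌋₊, (((m : ℝ) + 1) ^ (1 / c) - (m : ℝ) ^ (1 / c)) * F (s * m)|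
        ≤ K * (X : ℝ) ^ (1 - 1 / 4000 : ℝ) := by
  have hc0 : 0 < c := by linarith
  set x : ℝ := 1 - 1 / c with hx
  have hx0 : 0 < x := by
    have : 1 / c < 1 := by rw [div_lt_one hc0]; exact hc
    rw [hx]; linarith
  have hx1 : x < 1 / 101 := by
    have : 100 / 101 < 1 / c := by rw [div_lt_div_iff₀ (by norm_num) hc0]; linarith
    rw [hx]; linarith
  have hγ : 1 - x = 1 / c := by rw [hx]; ring
  obtain ⟨K1, hK1, H1⟩ := main_bound (d := 1) (Or.inl rfl) hx0 hx1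
  obtain ⟨K2, hK2, H2⟩ := main_bound (d := -1) (Or.inr rfl) hx0 hx1
  refine ⟨max K1 K2, by have := le_max_left K1 K2; linarith, ?_⟩
  intro s hs F hF X hX
  have hX1 : (1 : ℝ) ≤ X := by exact_mod_cast hX
  set M := ⌊(X : ℝ) ^ c⌋₊ with hM
  have hM1 : 1 ≤ M := by
    apply Nat.le_floor
    push_cast
    exact Real.one_le_rpow hX1 hc0.le
  have h1 := conv hc.le X (fun y => F (s * y))
  rw [h1, ← sum_sub_distrib]
  have h2 : ∑ m ∈ Icc 1 M, (F (s * (m : ℤ)) * ((⌈((m : ℝ) + 1) ^ (1 / c)⌉ : ℝ) - ⌈(m : ℝ) ^ (1 / c)⌉)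
      - (((m : ℝ) + 1) ^ (1 / c) - (m : ℝ) ^ (1 / c)) * F (s * (m : ℤ)))
      = ∑ m ∈ Icc 1 M, (fun y => F (s * y)) (m : ℤ) * ww (1 - x) m := by
    apply sum_congr rfl
    intro m _
    unfold ww
    rw [hγ]
    ring
  rw [h2]
  have h3 : |∑ m ∈ Icc 1 M, (fun y => F (s * y)) (m : ℤ) * ww (1 - x) m| ≤ max K1 K2 * (M : ℝ) ^ (1 - x - 1 / 4000) := by
    have hp : (0 : ℝ) ≤ (M : ℝ) ^ (1 - x - 1 / 4000) := by positivity
    rcases hs with rfl | rfl
    · exact (H1 M hM1 _ (sync_side (Or.inl rfl) hF)).trans (mul_le_mul_of_nonneg_right (le_max_left _ _) hp)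
    · exact (H2 M hM1 _ (sync_side (Or.inr rfl) hF)).trans (mul_le_mul_of_nonneg_right (le_max_right _ _) hp)
  refine h3.trans (mul_le_mul_of_nonneg_left ?_ (by have := le_max_left K1 K2; linarith))
  have h4 : (M : ℝ) ≤ (X : ℝ) ^ c := Nat.floor_le (by positivity)
  calc (M : ℝ) ^ (1 - x - 1 / 4000) ≤ ((X : ℝ) ^ c) ^ (1 - x - 1 / 4000) :=
        Real.rpow_le_rpow (Nat.cast_nonneg _) h4 (by linarith)
    _ = (X : ℝ) ^ (c * (1 - x - 1 / 4000)) := by rw [← Real.rpow_mul (by positivity)]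
    _ ≤ (X : ℝ) ^ (1 - 1 / 4000 : ℝ) := by
        apply Real.rpow_le_rpow_of_exponent_le hX1
        have e : c * (1 - x - 1 / 4000) = 1 - c / 4000 := by
          rw [hγ]; field_simp
        rw [e]; linarith

open Classical in
theorem count_eq (s : ℤ) (c : ℝ) (S : Set ℤ) (X : ℕ) :
    (count s c S X : ℝ) = ∑ n ∈ Icc 1 X, (fun x : ℤ => if x ∈ S then (1 : ℝ) else 0) (s * ⌊(n : ℝ) ^ c⌋) := by
  unfold count
  have e : {n : ℕ | 1 ≤ n ∧ n ≤ X ∧ s * ⌊(n : ℝ) ^ c⌋ ∈ S} =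
      ((Icc 1 X).filter fun n : ℕ => s * ⌊(n : ℝ) ^ c⌋ ∈ S : Finset ℕ) := by
    ext n
    simp only [Set.mem_ofPred_eq, coe_filter, mem_Icc, and_assoc]
  rw [e, Set.ncard_coe_finset]
  simp only
  rw [sum_boole]

/-- the density along the sequence -/
theorem density {c : ℝ} (hc : 1 < c) (hc' : c < 101 / 100) {s : ℤ} (hs : s = 1 ∨ s = -1) {ε : ℝ} (hε : 0 < ε) :
    ∃ X₀ : ℕ, ∀ S : Set ℤ, Invariant S → ∀ δ : ℝ, 0 ≤ δ → δ ≤ 1 → HD s S δ →
      ∀ X : ℕ, X₀ ≤ X → |(count s c S X : ℝ) - δ * X| ≤ ε * X := by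
  classical
  obtain ⟨K, hK, H⟩ := transfer hc hc'
  have hc0 : 0 < c := by linarith
  set γ : ℝ := 1 / c with hγ
  have hγ0 : 0 < γ := by positivity
  have hγ1 : γ < 1 := by rw [hγ, div_lt_one hc0]; exact hc
  obtain ⟨N0, hN0⟩ := unif hs (show 0 < ε / 4 by positivity)
  -- the power saving
  have hlim : Tendsto (fun X : ℕ => K * (X : ℝ) ^ (-(1 / 4000) : ℝ)) atTop (𝓝 0) := by
    have h1 := (tendsto_rpow_neg_atTop (show (0 : ℝ) < 1 / 4000 by norm_num)).comp tendsto_natCast_atTop_atTop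
    have h2 := h1.const_mul K
    rw [mul_zero] at h2
    exact h2
  obtain ⟨X1, hX1⟩ := (hlim.eventually (gt_mem_nhds (show (0 : ℝ) < ε / 4 by positivity))).exists_forall_of_atTop
  obtain ⟨X2, hX2⟩ := exists_nat_ge (4 * (N0 + 2 + ε) / ε)
  refine ⟨max (max X1 X2) 1, fun S hS δ hδ0 hδ1 hδ X hX => ?_⟩
  have hXX1 : X1 ≤ X := (le_max_left _ _).trans ((le_max_left _ _).trans hX)
  have hXX2 : X2 ≤ X := (le_max_right _ _).trans ((le_max_left _ _).trans hX)
  have hX1' : 1 ≤ X := (le_max_right _ _).trans hX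
  have hXR : (1 : ℝ) ≤ X := by exact_mod_cast hX1'
  have hXpos : (0 : ℝ) < X := by linarith
  set M := ⌊(X : ℝ) ^ c⌋₊ with hM
  set a : ℕ → ℝ := fun m => (fun x : ℤ => if x ∈ S then (1 : ℝ) else 0) (s * (m : ℤ)) with ha
  have h1 := H s hs _ (sync_ind hS) X hX1'
  rw [← count_eq] at h1
  have h2 : ∀ m : ℕ, |∑ k ∈ Icc 1 m, a k - δ * m| ≤ ε / 4 * m + N0 := by
    intro m
    have e : ∑ k ∈ Icc 1 m, a k = (cF s S m : ℝ) := by
      rw [ha]; unfold cF; simp only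
      rw [sum_boole]
    rw [e]
    rcases le_or_gt N0 m with hm | hm
    · have := hN0 S (inv_of hS) δ hδ m hm
      have h3 : (0 : ℝ) ≤ N0 := Nat.cast_nonneg _
      linarith
    · have h3 : (cF s S m : ℝ) ≤ m := by
        have := cF_compl s S m
        exact_mod_cast (by omega : cF s S m ≤ m)
      have h4 : (0 : ℝ) ≤ cF s S m := Nat.cast_nonneg _
      have h5 : (m : ℝ) ≤ N0 := by exact_mod_cast hm.le
      have h6 : (0 : ℝ) ≤ m := Nat.cast_nonneg _
      have h7 : 0 ≤ ε / 4 * m := by positivity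
      have h8 : δ * m ≤ m := by nlinarith
      have h9 : 0 ≤ δ * m := by positivity
      rw [abs_le]; constructor <;> linarith
  have h3 := Pool.Agent.Y965.PS.abel hγ0 hγ1 (by positivity : 0 ≤ ε / 4) (Nat.cast_nonneg N0) h2 M
  -- the size of `(M + 1) ^ γ`
  have hcγ : ∀ y : ℝ, 0 ≤ y → (y ^ c) ^ γ = y := by
    intro y hy
    rw [← Real.rpow_mul hy, hγ, mul_one_div, div_self hc0.ne', Real.rpow_one]
  have h4 : (X : ℝ) ≤ ((M : ℝ) + 1) ^ γ := by
    rw [← hcγ X hXpos.le]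
    exact Real.rpow_le_rpow (by positivity) (Nat.lt_floor_add_one _).le hγ0.le
  have h5 : ((M : ℝ) + 1) ^ γ ≤ X + 1 := by
    have h6 : (M : ℝ) ≤ (X : ℝ) ^ c := Nat.floor_le (by positivity)
    have h7 := pow_gap hc.le hXpos.le
    rw [← hcγ (X + 1) (by positivity)]
    exact Real.rpow_le_rpow (by positivity) (by linarith) hγ0.le
  have h6 : ∑ m ∈ Icc 1 M, (((m : ℝ) + 1) ^ (1 / c) - (m : ℝ) ^ (1 / c)) *
      (fun x : ℤ => if x ∈ S then (1 : ℝ) else 0) (s * (m : ℤ)) = ∑ m ∈ Icc 1 M, a m * ell γ m := by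
    apply sum_congr rfl
    intro m _
    unfold ell
    rw [hγ, mul_comm]
  rw [h6] at h1
  have h7 : K * (X : ℝ) ^ (1 - 1 / 4000 : ℝ) ≤ ε / 4 * X := by
    have h8 := (hX1 X hXX1).le
    have e : (X : ℝ) ^ (1 - 1 / 4000 : ℝ) = (X : ℝ) ^ (-(1 / 4000) : ℝ) * X := by
      rw [sub_eq_neg_add, Real.rpow_add hXpos, Real.rpow_one]
    rw [e, ← mul_assoc]
    exact mul_le_mul_of_nonneg_right h8 hXpos.le
  have h8 : 4 * (N0 + 2 + ε) ≤ ε * X := by
    have h9 : 4 * (N0 + 2 + ε) / ε ≤ X := hX2.trans (by exact_mod_cast hXX2)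
    rw [div_le_iff₀ hε] at h9
    linarith
  have h9 : |δ * (((M : ℝ) + 1) ^ γ - 1) - δ * X| ≤ 1 := by
    rw [← mul_sub, abs_mul, abs_of_nonneg hδ0]
    have h10 : |((M : ℝ) + 1) ^ γ - 1 - X| ≤ 1 := by
      rw [abs_le]; constructor <;> linarith
    nlinarith [abs_nonneg (((M : ℝ) + 1) ^ γ - 1 - X)]
  have h10 : ε / 4 * ((M : ℝ) + 1) ^ γ ≤ ε / 4 * (X + 1) := mul_le_mul_of_nonneg_left h5 (by positivity)
  have h11 : |(count s c S X : ℝ) - δ * X| ≤ |(count s c S X : ℝ) - ∑ m ∈ Icc 1 M, a m * ell γ m|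
      + |∑ m ∈ Icc 1 M, a m * ell γ m - δ * (((M : ℝ) + 1) ^ γ - 1)| + |δ * (((M : ℝ) + 1) ^ γ - 1) - δ * X| := by
    have e : (count s c S X : ℝ) - δ * X = ((count s c S X : ℝ) - ∑ m ∈ Icc 1 M, a m * ell γ m)
      + (∑ m ∈ Icc 1 M, a m * ell γ m - δ * (((M : ℝ) + 1) ^ γ - 1)) + (δ * (((M : ℝ) + 1) ^ γ - 1) - δ * X) := by ring
    rw [e]
    exact abs_add_three _ _ _
  linarith

/-- a set of density zero along the sequence contains no integer of the sign `s` -/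
theorem empty_of {c : ℝ} (hc : 1 < c) (hc' : c < 101 / 100) {s : ℤ} (hs : s = 1 ∨ s = -1) {S : Set ℤ}
    (hS : Invariant S) {ψ : ℕ → ℝ} (hψ : Tendsto ψ atTop (𝓝 0))
    (h : ∃ᶠ X : ℕ in atTop, (count s c S X : ℝ) ≤ ψ X * X) : ∀ x ∈ S, ¬ 0 < s * x := by
  intro x hx hx0
  obtain ⟨δ, h0, h1, hδ⟩ := dens_side (d := 1) odd_one (by norm_num) hs (inv_of hS)
  have hpos := Pool.Agent.H499R2.ND.one_pos hs (inv_of hS) hx hx0 hδ
  obtain ⟨X₀, hX₀⟩ := density hc hc' hs (show 0 < δ / 4 by positivity)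
  have h2 : ∀ᶠ X : ℕ in atTop, ψ X < δ / 4 := hψ.eventually (gt_mem_nhds (by positivity))
  obtain ⟨X, hX, hX1, hX2, hX3⟩ := (h.and_eventually (h2.and ((eventually_ge_atTop X₀).and (eventually_ge_atTop 1)))).exists
  have h3 := (abs_le.1 (hX₀ S hS δ h0 h1 hδ X hX2)).1
  have h4 : (1 : ℝ) ≤ X := by exact_mod_cast hX3
  nlinarith

theorem inv_not_reaches : Invariant {x | ¬ Reaches x} := by
  intro x
  apply not_congr
  constructor
  · rintro ⟨k, hk⟩
    rcases k with _ | k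
    · refine ⟨0, ?_⟩
      have hk' : x ∈ Known := hk
      show C x ∈ Known
      fin_cases hk' <;> decide
    · exact ⟨k, by rwa [Function.iterate_succ_apply] at hk⟩
  · rintro ⟨k, hk⟩
    exact ⟨k + 1, by rwa [Function.iterate_succ_apply]⟩

/-- Let `1 < c < 101/100`.
(1) For every bounded function `F` that has the same value at integers whose trajectories under the
shortcut map are at some time at the same point, the sum of the `F (s ⌊n ^ c⌋)`, `n ≤ X`, is the sum of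
`((m + 1) ^ (1 / c) - m ^ (1 / c)) F (s m)` over all `m ≤ X ^ c`, with a power saving error term which is
uniform in `F`.
(2) The natural density `δ` of an invariant set `S` among the integers of sign `s` (it is positive if `S`
contains an integer of this sign) is also the density of the `n` with `s ⌊n ^ c⌋ ∈ S`, uniformly in `S`.
(3) If for infinitely many `X` the set `S` contains `s ⌊n ^ c⌋` for all but `o(X)` of the `n ≤ X`, then it
contains all integers of sign `s`.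
(4) If for infinitely many `X` the trajectory of `⌊n ^ c⌋` reaches the known cycles for all but `o(X)`
of the `n ≤ X`, and for infinitely many `X` the same holds for `-⌊n ^ c⌋`, then the trajectories of all
integers reach the known cycles. -/
theorem result (c : ℝ) (hc : 1 < c) (hc' : c < 101 / 100) :
    (∃ K : ℝ, ∀ s : ℤ, (s = 1 ∨ s = -1) → ∀ F : ℤ → ℝ, Synchronous F → ∀ X : ℕ, 1 ≤ X →
      |∑ n ∈ Finset.Icc 1 X, F (s * ⌊(n : ℝ) ^ c⌋)
        - ∑ m ∈ Finset.Icc 1 ⌊(X : ℝ) ^ c⌋₊, (((m : ℝ) + 1) ^ (1 / c) - (m : ℝ) ^ (1 / c)) * F (s * m)|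
        ≤ K * (X : ℝ) ^ (1 - 1 / 4000 : ℝ)) ∧
    (∀ s : ℤ, (s = 1 ∨ s = -1) → ∀ ε : ℝ, 0 < ε → ∃ X₀ : ℕ, ∀ S : Set ℤ, Invariant S → ∃ δ : ℝ,
      HasDensity s S δ ∧ ((∃ x ∈ S, 0 < s * x) → 0 < δ) ∧
      ∀ X : ℕ, X₀ ≤ X → |(count s c S X : ℝ) - δ * X| ≤ ε * X) ∧
    (∀ s : ℤ, (s = 1 ∨ s = -1) → ∀ S : Set ℤ, Invariant S → ∀ ψ : ℕ → ℝ, Tendsto ψ atTop (𝓝 0) →
      (∃ᶠ X : ℕ in atTop, (count s c Sᶜ X : ℝ) ≤ ψ X * X) → ∀ x : ℤ, 0 < s * x → x ∈ S) ∧
    ∀ ψ : ℕ → ℝ, Tendsto ψ atTop (𝓝 0) →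
      (∀ s : ℤ, (s = 1 ∨ s = -1) → ∃ᶠ X : ℕ in atTop, (count s c {x | ¬ Reaches x} X : ℝ) ≤ ψ X * X) →
      ∀ x : ℤ, Reaches x := by
  refine ⟨?_, ?_, ?_, ?_⟩
  · obtain ⟨K, -, H⟩ := transfer hc hc'
    exact ⟨K, H⟩
  · intro s hs ε hε
    obtain ⟨X₀, hX₀⟩ := density hc hc' hs hε
    refine ⟨X₀, fun S hS => ?_⟩
    obtain ⟨δ, h0, h1, hδ⟩ := dens_side (d := 1) odd_one (by norm_num) hs (inv_of hS)
    refine ⟨δ, HD_ncard hs hδ, ?_, fun X hX => hX₀ S hS δ h0 h1 hδ X hX⟩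
    rintro ⟨x, hx, hx0⟩
    exact Pool.Agent.H499R2.ND.one_pos hs (inv_of hS) hx hx0 hδ
  · intro s hs S hS ψ hψ h x hx
    by_contra hcon
    exact empty_of hc hc' hs (S := Sᶜ) (fun x => not_congr (hS x)) hψ h x hcon hx
  · intro ψ hψ h x
    by_contra hcon
    rcases lt_trichotomy x 0 with hx | hx | hx
    · exact empty_of hc hc' (Or.inr rfl) inv_not_reaches hψ (h (-1) (Or.inr rfl)) x hcon (by linarith)
    · exact hcon ⟨0, by rw [hx]; decide⟩
    · exact empty_of hc hc' (Or.inl rfl) inv_not_reaches hψ (h 1 (Or.inl rfl)) x hcon (by linarith)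

end Pool.Agent.Results.MP_d02c56_nt.PiatetskiShapiro
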