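import Pool.Agent.Y55.DS.Disc2
import Pool.Agent.W41.Dens

set_option autoImplicit false

/-!
# Sets invariant under the Collatz map and polynomials modulo one

Let `F` be a bounded function on the integers that has the same value at any two integers whose
trajectories under the shortcut map are at some time at the same point, for example the indicator
function of a union of basins of cycles. A Weyl inequality holds for the sums of `F n e(P n)`: there is a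
power saving, uniform in `F`, for all real polynomials `P` of degree `k ≥ 2` whose leading coefficient
is not near a rational number with small denominator. So for all polynomials with a given diophantine
leading coefficient (`√2 n ^ 2 + ...`) the values at the integers in an invariant set are equidistributed
modulo one with a power saving that does not depend on the set, and invariant sets have their natural
density in the sparse sets of the `n ≤ X` for which the fractional part of `P n` is less than `X ^ (-ν)`.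

Method. The fibres of the `t`-th iterate of the shortcut map among the integers with `a` odd terms in
the first `t` terms; Cauchy-Schwarz; the pairs `n`, `n + h` in one fibre depend only on `n` modulo
`2 ^ t`, and `P (n + h) - P n` is a polynomial of degree `k - 1` to which the inverse theorem for Weyl
sums can be applied. The number of the fibres times the range of `h` is about `N`, for each `a`, so
that a small power saving for each `h` suffices.
-/

namespace Pool.Agent.Results.MP_d02c56_nt.PolynomialsModuloOne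

open Filter Topology

/-- The Collatz map on the integers. -/
def C (x : ℤ) : ℤ := if x % 2 = 0 then x / 2 else 3 * x + 1

/-- The shortcut map. -/
def T (x : ℤ) : ℤ := if x % 2 = 0 then x / 2 else (3 * x + 1) / 2

/-- `S` is invariant under the Collatz map and its inverse. -/
def Invariant (S : Set ℤ) : Prop := ∀ x : ℤ, x ∈ S ↔ C x ∈ S

/-- Among the integers of sign `s` the set `S` has natural density `δ`. -/
def HasDensity (s : ℤ) (S : Set ℤ) (δ : ℝ) : Prop :=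
  Tendsto (fun N : ℕ => ({n : ℤ | 0 < s * n ∧ s * n ≤ N ∧ n ∈ S}.ncard : ℝ) / N) atTop (𝓝 δ)

/-- A bounded function on the integers that has the same value at any two integers whose
trajectories under the shortcut map are at some time at the same point. -/
def Synchronous (F : ℤ → ℝ) : Prop :=
  (∀ x, |F x| ≤ 1) ∧ ∀ (j : ℕ) (x y : ℤ), T^[j] x = T^[j] y → F x = F y

/-- `exp (2 π i x)` -/
noncomputable def e (x : ℝ) : ℂ := Complex.exp (2 * Real.pi * x * Complex.I)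

/-- `α` is irrational and not a Liouville number. -/
def Diophantine (α : ℝ) : Prop :=
  ∃ A c : ℝ, 0 < c ∧ ∀ l : ℕ, 1 ≤ l → ∀ a : ℤ, c * (l : ℝ) ^ (-A) ≤ |l * α - a|

/-- The number of the `n` in `[1, X]` with `s n ∈ S` for which the fractional part of `P n` is less
than `w`. -/
noncomputable def count (s : ℤ) (P : Polynomial ℝ) (w : ℝ) (S : Set ℤ) (X : ℕ) : ℕ :=
  {n : ℕ | 1 ≤ n ∧ n ≤ X ∧ Int.fract (P.eval (n : ℝ)) < w ∧ s * n ∈ S}.ncard

/-- The union of the five known cycles. -/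
def Known : Finset ℤ := {1, 4, 2, -1, -2, -5, -14, -7, -20, -10, -17, -50, -25, -74, -37, -110,
  -55, -164, -82, -41, -122, -61, -182, -91, -272, -136, -68, -34, 0}

/-- The trajectory of `x` reaches one of the five known cycles. -/
def Reaches (x : ℤ) : Prop := ∃ k : ℕ, C^[k] x ∈ Known

/-! ### proofs -/

open Pool.Agent.H499R2.ND Pool.Agent.W41 Pool.Agent.Y965.PS Pool.Agent.Y55 Finset

theorem T_cases (x : ℤ) : T x = C x ∨ T x = C (C x) := by
  unfold T C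
  by_cases h : x % 2 = 0
  · left; simp [h]
  · right
    have h2 : (3 * x + 1) % 2 = 0 := by omega
    simp [h, h2]

theorem inv_T {S : Set ℤ} (hS : Invariant S) (x : ℤ) : x ∈ S ↔ T x ∈ S := by
  rcases T_cases x with h | h
  · rw [h]; exact hS x
  · rw [h, ← hS, ← hS]

theorem inv_of {S : Set ℤ} (hS : Invariant S) : Inv 1 S := by
  intro x
  have e : Td 1 x = T x := by unfold Td T; rfl
  rw [e]; exact inv_T hS x

theorem inv_iter {S : Set ℤ} (hS : Invariant S) (j : ℕ) : ∀ x : ℤ, x ∈ S ↔ T^[j] x ∈ S := by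
  induction j with
  | zero => intro x; rfl
  | succ j ih => intro x; rw [Function.iterate_succ_apply, ← ih]; exact inv_T hS x

theorem T_side {s : ℤ} (hs : s = 1 ∨ s = -1) (x : ℤ) : T (s * x) = s * Tz s x := by
  unfold T Tz
  rcases hs with rfl | rfl <;> split_ifs <;> omega

theorem T_side_iter {s : ℤ} (hs : s = 1 ∨ s = -1) (j : ℕ) : ∀ x : ℤ, T^[j] (s * x) = s * (Tz s)^[j] x := by
  induction j with
  | zero => intro x; rfl
  | succ j ih => intro x; rw [Function.iterate_succ_apply, Function.iterate_succ_apply, T_side hs, ih]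

theorem sync_side {s : ℤ} (hs : s = 1 ∨ s = -1) {F : ℤ → ℝ} (hF : Synchronous F) :
    Sync s (fun x => F (s * x)) := by
  refine ⟨fun x => hF.1 _, fun j x y h => hF.2 j _ _ ?_⟩
  rw [T_side_iter hs, T_side_iter hs, h]

open Classical in
theorem sync_ind {S : Set ℤ} (hS : Invariant S) : Synchronous (fun x => if x ∈ S then 1 else 0) := by
  refine ⟨fun x => by by_cases h : x ∈ S <;> simp [h], fun j x y h => ?_⟩
  have e : x ∈ S ↔ y ∈ S := by rw [inv_iter hS j x, inv_iter hS j y, h]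
  simp only [e]

/-- the two signs at once -/
theorem both {Φ : ℤ → ℝ → ℝ → Prop} (h : ∀ s : ℤ, (s = 1 ∨ s = -1) → ∃ C c : ℝ, 0 ≤ C ∧ 0 < c ∧ Φ s C c)
    (hm : ∀ s C c C' c', C ≤ C' → c' ≤ c → Φ s C c → Φ s C' c') :
    ∃ K c : ℝ, 0 ≤ K ∧ 0 < c ∧ ∀ s : ℤ, (s = 1 ∨ s = -1) → Φ s K c := by
  obtain ⟨C1, c1, hC1, hc1, h1⟩ := h 1 (Or.inl rfl)
  obtain ⟨C2, c2, hC2, hc2, h2⟩ := h (-1) (Or.inr rfl)
  refine ⟨max C1 C2, min c1 c2, le_max_of_le_left hC1, lt_min hc1 hc2, ?_⟩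
  rintro s (rfl | rfl)
  · exact hm _ _ _ _ _ (le_max_left _ _) (min_le_left _ _) h1
  · exact hm _ _ _ _ _ (le_max_right _ _) (min_le_right _ _) h2

theorem bound_mono {C C' c c' A : ℝ} (h1 : C ≤ C') (h2 : c' ≤ c) {X : ℕ} (hX : 1 ≤ X) (hA : 0 ≤ A)
    (h : A ≤ C * (X : ℝ) ^ (1 - c)) : A ≤ C' * (X : ℝ) ^ (1 - c') := by
  have hXR : (1 : ℝ) ≤ X := by exact_mod_cast hX
  have hp : (0 : ℝ) < (X : ℝ) ^ (1 - c) := by positivity
  have hC : 0 ≤ C := by
    by_contra hcon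
    push Not at hcon
    nlinarith
  have h3 : (X : ℝ) ^ (1 - c) ≤ (X : ℝ) ^ (1 - c') := Real.rpow_le_rpow_of_exponent_le hXR (by linarith)
  exact h.trans (mul_le_mul h1 h3 hp.le (hC.trans h1))

/-- the Weyl inequality -/
theorem weyl {k : ℕ} (hk : 2 ≤ k) {η : ℝ} (hη : 0 < η) : ∃ K c : ℝ, 0 ≤ K ∧ 0 < c ∧ ∀ s : ℤ, (s = 1 ∨ s = -1) →
    ∀ F : ℤ → ℝ, Synchronous F → ∀ P : Polynomial ℝ, P.natDegree ≤ k → ∀ X : ℕ, 1 ≤ X →
      (∀ l : ℕ, 1 ≤ l → (l : ℝ) ≤ (X : ℝ) ^ η → ∀ a : ℤ, (X : ℝ) ^ (η + 1 - k) ≤ |l * P.coeff k - a|) →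
      ‖∑ n ∈ Finset.Icc 1 X, (F (s * n) : ℂ) * e (P.eval (n : ℝ))‖ ≤ K * (X : ℝ) ^ (1 - c) := by
  obtain ⟨k, rfl⟩ : ∃ k', k = k' + 1 := ⟨k - 1, by omega⟩
  refine both (Φ := fun s K c => ∀ F : ℤ → ℝ, Synchronous F → ∀ P : Polynomial ℝ, P.natDegree ≤ k + 1 → ∀ X : ℕ, 1 ≤ X →
      (∀ l : ℕ, 1 ≤ l → (l : ℝ) ≤ (X : ℝ) ^ η → ∀ a : ℤ, (X : ℝ) ^ (η + 1 - (k + 1 : ℕ)) ≤ |l * P.coeff (k + 1) - a|) →
      ‖∑ n ∈ Finset.Icc 1 X, (F (s * n) : ℂ) * e (P.eval (n : ℝ))‖ ≤ K * (X : ℝ) ^ (1 - c)) ?_ ?_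
  · intro s hs
    obtain ⟨C1, c1, hC1, hc1, H⟩ := DS.weyl_sync hs (k := k) (by omega) (show 0 < η / 2 by positivity)
    set D : ℝ := ((k + 1).factorial : ℝ) with hD
    have hD1 : 1 ≤ D := by
      rw [hD]; exact_mod_cast Nat.one_le_iff_ne_zero.2 (Nat.factorial_ne_zero _)
    have hD0 : 0 < D := by linarith
    refine ⟨C1 + D ^ (2 / η), min c1 1, by positivity, lt_min hc1 one_pos, ?_⟩
    intro F hF P hP X hX hmin
    have hXR : (1 : ℝ) ≤ X := by exact_mod_cast hX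
    have hX0 : (0 : ℝ) < X := by linarith
    rcases le_or_gt D ((X : ℝ) ^ (η / 2)) with hbig | hsm
    · have h1 := DS.Ph_real (k + 1) P hP
      have h2 := H _ (sync_side hs hF) X hX _ _ h1 (by
        intro l hl hl2 a
        have h3 : 1 ≤ l * (k + 1).factorial := Nat.mul_pos hl (Nat.factorial_pos _)
        have h4 : ((l * (k + 1).factorial : ℕ) : ℝ) ≤ (X : ℝ) ^ η := by
          push_cast
          have e1 : (X : ℝ) ^ η = (X : ℝ) ^ (η / 2) * (X : ℝ) ^ (η / 2) := by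
            rw [← Real.rpow_add hX0]; congr 1; ring
          rw [e1]
          exact mul_le_mul hl2 hbig (by positivity) (by positivity)
        have h5 := hmin _ h3 h4 a
        have h6 : ((l * (k + 1).factorial : ℕ) : ℝ) * P.coeff (k + 1) - a = l * (((k + 1).factorial : ℝ) * P.coeff (k + 1)) - a := by
          push_cast; ring
        rw [h6] at h5
        refine le_trans ?_ h5
        apply Real.rpow_le_rpow_of_exponent_le hXR
        push_cast
        linarith)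
      have h3 : ‖∑ n ∈ Finset.Icc 1 X, (F (s * n) : ℂ) * e (P.eval (n : ℝ))‖ ≤ C1 * (X : ℝ) ^ (1 - c1) := h2
      exact bound_mono (by have : 0 ≤ D ^ (2 / η) := by positivity
                           linarith) (min_le_left _ _) hX (norm_nonneg _) h3
    · have h1 : ‖∑ n ∈ Finset.Icc 1 X, (F (s * n) : ℂ) * e (P.eval (n : ℝ))‖ ≤ X := by
        refine (norm_sum_le _ _).trans ?_
        have h2 : ∀ n ∈ Finset.Icc 1 X, ‖(F (s * n) : ℂ) * e (P.eval (n : ℝ))‖ ≤ 1 := by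
          intro n _
          have h3 : ‖e (P.eval (n : ℝ))‖ = 1 := Pool.Agent.Helper602.MK.N_J5b.norm_ee _
          rw [norm_mul, Complex.norm_real, Real.norm_eq_abs, h3, mul_one]
          exact hF.1 _
        refine (sum_le_sum h2).trans ?_
        simp
      have h2 : (X : ℝ) ≤ D ^ (2 / η) := by
        have h3 : ((X : ℝ) ^ (η / 2)) ^ (2 / η) ≤ D ^ (2 / η) := Real.rpow_le_rpow (by positivity) hsm.le (by positivity)
        rw [← Real.rpow_mul hX0.le] at h3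
        have h4 : η / 2 * (2 / η) = 1 := by field_simp
        rwa [h4, Real.rpow_one] at h3
      have h3 : (1 : ℝ) ≤ (X : ℝ) ^ (1 - min c1 1) :=
        Real.one_le_rpow hXR (by have := min_le_right c1 1; linarith)
      calc _ ≤ (X : ℝ) := h1
        _ ≤ C1 + D ^ (2 / η) := by linarith
        _ ≤ _ := le_mul_of_one_le_right (by positivity) h3
  · intro s C c C' c' h1 h2 h F hF P hP X hX hmin
    exact bound_mono h1 h2 hX (norm_nonneg _) (h F hF P hP X hX hmin)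

open Classical in
/-- the discrepancy -/
theorem discrepancy {k : ℕ} (hk : 2 ≤ k) {α : ℝ} (hα : Diophantine α) : ∃ K c : ℝ, 0 ≤ K ∧ 0 < c ∧ ∀ s : ℤ, (s = 1 ∨ s = -1) →
    ∀ F : ℤ → ℝ, Synchronous F → ∀ P : Polynomial ℝ, P.natDegree ≤ k → P.coeff k = α → ∀ u v : ℝ, 0 ≤ u → u ≤ v → v ≤ 1 →
    ∀ X : ℕ, 1 ≤ X →
      |∑ n ∈ (Finset.Icc 1 X).filter (fun n : ℕ => u ≤ Int.fract (P.eval (n : ℝ)) ∧ Int.fract (P.eval (n : ℝ)) < v), F (s * n)
        - (v - u) * ∑ n ∈ Finset.Icc 1 X, F (s * n)| ≤ K * (X : ℝ) ^ (1 - c) := by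
  obtain ⟨k, rfl⟩ : ∃ k', k = k' + 1 := ⟨k - 1, by omega⟩
  refine both (Φ := fun s K c => ∀ F : ℤ → ℝ, Synchronous F → ∀ P : Polynomial ℝ, P.natDegree ≤ k + 1 → P.coeff (k + 1) = α →
    ∀ u v : ℝ, 0 ≤ u → u ≤ v → v ≤ 1 → ∀ X : ℕ, 1 ≤ X →
      |∑ n ∈ (Finset.Icc 1 X).filter (fun n : ℕ => u ≤ Int.fract (P.eval (n : ℝ)) ∧ Int.fract (P.eval (n : ℝ)) < v), F (s * n)
        - (v - u) * ∑ n ∈ Finset.Icc 1 X, F (s * n)| ≤ K * (X : ℝ) ^ (1 - c)) ?_ ?_
  · intro s hs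
    obtain ⟨C1, c1, hC1, hc1, -, H⟩ := DS.disc hs (k := k) (by omega) hα
    exact ⟨C1, c1, hC1, hc1, fun F hF P hP hPc u v hu huv hv X hX => H _ (sync_side hs hF) P hP hPc u v hu huv hv X hX⟩
  · intro s C c C' c' h1 h2 h F hF P hP hPc u v hu huv hv X hX
    exact bound_mono h1 h2 hX (abs_nonneg _) (h F hF P hP hPc u v hu huv hv X hX)

open Classical in
theorem count_eq (s : ℤ) (P : Polynomial ℝ) (w : ℝ) (S : Set ℤ) (X : ℕ) :
    (count s P w S X : ℝ) = ∑ n ∈ (Finset.Icc 1 X).filter (fun n : ℕ => 0 ≤ Int.fract (P.eval (n : ℝ)) ∧ Int.fract (P.eval (n : ℝ)) < w),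
      (fun x : ℤ => if x ∈ S then (1 : ℝ) else 0) (s * n) := by
  unfold count
  have e1 : {n : ℕ | 1 ≤ n ∧ n ≤ X ∧ Int.fract (P.eval (n : ℝ)) < w ∧ s * n ∈ S} =
      ((((Finset.Icc 1 X).filter (fun n : ℕ => 0 ≤ Int.fract (P.eval (n : ℝ)) ∧ Int.fract (P.eval (n : ℝ)) < w)).filter
        (fun n : ℕ => s * (n : ℤ) ∈ S) : Finset ℕ) : Set ℕ) := by
    ext n
    simp only [Set.mem_ofPred_eq, coe_filter, Finset.mem_Icc, mem_filter, and_assoc, Int.fract_nonneg, true_and]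
  rw [e1, Set.ncard_coe_finset]
  simp only
  rw [sum_boole]

/-- the density in the sparse sets -/
theorem density {k : ℕ} (hk : 2 ≤ k) {α : ℝ} (hα : Diophantine α) : ∃ ν₀ : ℝ, 0 < ν₀ ∧ ∀ ν : ℝ, 0 ≤ ν → ν ≤ ν₀ →
    ∀ s : ℤ, (s = 1 ∨ s = -1) → ∀ ε : ℝ, 0 < ε → ∃ X₀ : ℕ, 1 ≤ X₀ ∧ ∀ S : Set ℤ, Invariant S → ∀ δ : ℝ, HD s S δ →
    ∀ P : Polynomial ℝ, P.natDegree ≤ k → P.coeff k = α → ∀ X : ℕ, X₀ ≤ X →
      |(count s P ((X : ℝ) ^ (-ν)) S X : ℝ) - δ * (X : ℝ) ^ (1 - ν)| ≤ ε * (X : ℝ) ^ (1 - ν) := by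
  classical
  obtain ⟨K, c, hK, hc, H⟩ := discrepancy hk hα
  refine ⟨c / 2, by positivity, fun ν hν0 hν1 s hs ε hε => ?_⟩
  obtain ⟨N0, hN0⟩ := unif hs (show 0 < ε / 2 by positivity)
  have hlim : Tendsto (fun X : ℕ => K * (X : ℝ) ^ (-(c / 2))) atTop (𝓝 0) := by
    have h1 := (tendsto_rpow_neg_atTop (show 0 < c / 2 by positivity)).comp tendsto_natCast_atTop_atTop
    have h2 := h1.const_mul K
    rw [mul_zero] at h2
    exact h2
  obtain ⟨X1, hX1⟩ := (hlim.eventually (gt_mem_nhds (show (0 : ℝ) < ε / 2 by positivity))).exists_forall_of_atTop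
  refine ⟨N0 + X1 + 1, by omega, fun S hS δ hδ P hP hPc X hX => ?_⟩
  have hXR : (1 : ℝ) ≤ X := by exact_mod_cast (by omega : 1 ≤ X)
  have hX0 : (0 : ℝ) < X := by linarith
  have hw0 : (0 : ℝ) ≤ (X : ℝ) ^ (-ν) := by positivity
  have hw1 : (X : ℝ) ^ (-ν) ≤ 1 := Real.rpow_le_one_of_one_le_of_nonpos hXR (by linarith)
  have h1 := H s hs _ (sync_ind hS) P hP hPc 0 ((X : ℝ) ^ (-ν)) le_rfl hw0 hw1 X (by omega)
  rw [← count_eq, sub_zero] at h1
  have h2 : ∑ n ∈ Finset.Icc 1 X, (fun x : ℤ => if x ∈ S then (1 : ℝ) else 0) (s * (n : ℤ)) = (cF s S X : ℝ) := by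
    unfold cF; simp only
    rw [sum_boole]
  rw [h2] at h1
  have h3 := hN0 S (inv_of hS) δ hδ X (by omega)
  have hsplit : (X : ℝ) ^ (1 - ν) = (X : ℝ) ^ (-ν) * X := by
    rw [sub_eq_neg_add, Real.rpow_add hX0, Real.rpow_one]
  have h4 : K * (X : ℝ) ^ (1 - c) ≤ ε / 2 * (X : ℝ) ^ (1 - ν) := by
    have e1 : (X : ℝ) ^ (1 - c) = (X : ℝ) ^ (-(c / 2)) * (X : ℝ) ^ (1 - c / 2) := by
      rw [← Real.rpow_add hX0]; congr 1; ring
    have e2 : (X : ℝ) ^ (1 - c / 2) ≤ (X : ℝ) ^ (1 - ν) := Real.rpow_le_rpow_of_exponent_le hXR (by linarith)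
    have e3 := (hX1 X (by omega)).le
    rw [e1, ← mul_assoc]
    exact mul_le_mul e3 e2 (by positivity) (by positivity)
  have h5 : |(X : ℝ) ^ (-ν) * (cF s S X : ℝ) - δ * (X : ℝ) ^ (1 - ν)| ≤ ε / 2 * (X : ℝ) ^ (1 - ν) := by
    rw [hsplit]
    have e1 : (X : ℝ) ^ (-ν) * (cF s S X : ℝ) - δ * ((X : ℝ) ^ (-ν) * X) = (X : ℝ) ^ (-ν) * ((cF s S X : ℝ) - δ * X) := by ring
    rw [e1, abs_mul, abs_of_nonneg hw0]
    calc (X : ℝ) ^ (-ν) * |(cF s S X : ℝ) - δ * X| ≤ (X : ℝ) ^ (-ν) * (ε / 2 * X) := mul_le_mul_of_nonneg_left h3 hw0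
      _ = _ := by ring
  have h6 : |(count s P ((X : ℝ) ^ (-ν)) S X : ℝ) - δ * (X : ℝ) ^ (1 - ν)| ≤
      |(count s P ((X : ℝ) ^ (-ν)) S X : ℝ) - (X : ℝ) ^ (-ν) * (cF s S X : ℝ)|
      + |(X : ℝ) ^ (-ν) * (cF s S X : ℝ) - δ * (X : ℝ) ^ (1 - ν)| := by
    have e : (count s P ((X : ℝ) ^ (-ν)) S X : ℝ) - δ * (X : ℝ) ^ (1 - ν)
      = ((count s P ((X : ℝ) ^ (-ν)) S X : ℝ) - (X : ℝ) ^ (-ν) * (cF s S X : ℝ))
      + ((X : ℝ) ^ (-ν) * (cF s S X : ℝ) - δ * (X : ℝ) ^ (1 - ν)) := by ring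
    rw [e]
    exact abs_add_le _ _
  linarith

theorem inv_not_reaches : Invariant {x | ¬ Reaches x} := by
  intro x
  apply not_congr
  constructor
  · rintro ⟨k, hk⟩
    rcases k with _ | k
    · refine ⟨0, ?_⟩
      have hk' : x ∈ Known := hk
      show C x ∈ Known
      fin_cases hk' <;> decide
    · exact ⟨k, by rwa [Function.iterate_succ_apply] at hk⟩
  · rintro ⟨k, hk⟩
    exact ⟨k + 1, by rwa [Function.iterate_succ_apply]⟩

/-- (1) For `k ≥ 2` and `η > 0` there are `K` and `c > 0` such that for both signs `s`, all bounded functions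
`F` that have the same value at integers whose trajectories under the shortcut map are at some time at
the same point, all `X`, and all real polynomials `P` of degree at most `k` such that the `k`-th
coefficient multiplied by any positive integer `l ≤ X ^ η` has distance at least `X ^ (η + 1 - k)` to the
integers: the sum of `F (s n) e(P n)` over `n ≤ X` is at most `K X ^ (1 - c)`.
(2) Let `α` be diophantine and `k ≥ 2`. There are `K` and `c > 0` such that for all such `s`, `F`, `X`, for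
all real polynomials `P` of degree `k` with leading coefficient `α` and all intervals `[u, v)` in `[0, 1]`,
the sum of `F (s n)` over the `n ≤ X` for which the fractional part of `P n` is in the interval is `v - u`
times the sum over all `n ≤ X`, up to `K X ^ (1 - c)`.
(3) For `0 ≤ ν ≤ ν₀` (where `ν₀ > 0` depends on `α` and `k` only) an invariant set with natural density
`δ` among the integers of sign `s` (`δ` is positive if it contains such an integer) contains `s n` for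
`(δ + o(1)) X ^ (1 - ν)` of the `n ≤ X` for which the fractional part of `P n` is less than `X ^ (-ν)`,
uniformly in the set and in `P`.
(4) If for infinitely many `X`, for some such `P`, the invariant set `S` contains `s n` for all but
`o(X ^ (1 - ν))` of these `n`, then it contains all integers of sign `s`; if this holds for both signs for
the set of the integers which reach the known cycles, then all integers reach the known cycles. -/
theorem result :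
    (∀ k : ℕ, 2 ≤ k → ∀ η : ℝ, 0 < η → ∃ K c : ℝ, 0 < c ∧ ∀ s : ℤ, (s = 1 ∨ s = -1) →
      ∀ F : ℤ → ℝ, Synchronous F → ∀ P : Polynomial ℝ, P.natDegree ≤ k → ∀ X : ℕ, 1 ≤ X →
        (∀ l : ℕ, 1 ≤ l → (l : ℝ) ≤ (X : ℝ) ^ η → ∀ a : ℤ, (X : ℝ) ^ (η + 1 - k) ≤ |l * P.coeff k - a|) →
        ‖∑ n ∈ Finset.Icc 1 X, (F (s * n) : ℂ) * e (P.eval (n : ℝ))‖ ≤ K * (X : ℝ) ^ (1 - c)) ∧
    ∀ k : ℕ, 2 ≤ k → ∀ α : ℝ, Diophantine α →
      (∃ K c : ℝ, 0 < c ∧ ∀ s : ℤ, (s = 1 ∨ s = -1) → ∀ F : ℤ → ℝ, Synchronous F →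
        ∀ P : Polynomial ℝ, P.natDegree ≤ k → P.coeff k = α → ∀ u v : ℝ, 0 ≤ u → u ≤ v → v ≤ 1 → ∀ X : ℕ, 1 ≤ X →
          |∑ n ∈ (Finset.Icc 1 X).filter (fun n : ℕ => u ≤ Int.fract (P.eval (n : ℝ)) ∧ Int.fract (P.eval (n : ℝ)) < v),
            F (s * n) - (v - u) * ∑ n ∈ Finset.Icc 1 X, F (s * n)| ≤ K * (X : ℝ) ^ (1 - c)) ∧
      ∃ ν₀ : ℝ, 0 < ν₀ ∧ ∀ ν : ℝ, 0 ≤ ν → ν ≤ ν₀ →
        (∀ s : ℤ, (s = 1 ∨ s = -1) → ∀ ε : ℝ, 0 < ε → ∃ X₀ : ℕ, ∀ S : Set ℤ, Invariant S → ∃ δ : ℝ,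
          HasDensity s S δ ∧ ((∃ x ∈ S, 0 < s * x) → 0 < δ) ∧
          ∀ P : Polynomial ℝ, P.natDegree ≤ k → P.coeff k = α → ∀ X : ℕ, X₀ ≤ X →
            |(count s P ((X : ℝ) ^ (-ν)) S X : ℝ) - δ * (X : ℝ) ^ (1 - ν)| ≤ ε * (X : ℝ) ^ (1 - ν)) ∧
        (∀ s : ℤ, (s = 1 ∨ s = -1) → ∀ S : Set ℤ, Invariant S → ∀ ψ : ℕ → ℝ, Tendsto ψ atTop (𝓝 0) →
          (∃ᶠ X : ℕ in atTop, ∃ P : Polynomial ℝ, P.natDegree ≤ k ∧ P.coeff k = α ∧
            (count s P ((X : ℝ) ^ (-ν)) Sᶜ X : ℝ) ≤ ψ X * (X : ℝ) ^ (1 - ν)) → ∀ x : ℤ, 0 < s * x → x ∈ S) ∧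
        ∀ ψ : ℕ → ℝ, Tendsto ψ atTop (𝓝 0) →
          (∀ s : ℤ, (s = 1 ∨ s = -1) → ∃ᶠ X : ℕ in atTop, ∃ P : Polynomial ℝ, P.natDegree ≤ k ∧ P.coeff k = α ∧
            (count s P ((X : ℝ) ^ (-ν)) {x | ¬ Reaches x} X : ℝ) ≤ ψ X * (X : ℝ) ^ (1 - ν)) →
          ∀ x : ℤ, Reaches x := by
  refine ⟨?_, ?_⟩
  · intro k hk η hη
    obtain ⟨K, c, -, hc, H⟩ := weyl hk hη
    exact ⟨K, c, hc, H⟩
  intro k hk α hα
  refine ⟨?_, ?_⟩
  · obtain ⟨K, c, -, hc, H⟩ := discrepancy hk hα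
    refine ⟨K, c, hc, fun s hs F hF P hP hPc u v hu huv hv X hX => ?_⟩
    convert H s hs F hF P hP hPc u v hu huv hv X hX
  obtain ⟨ν₀, hν₀, H⟩ := density hk hα
  refine ⟨ν₀, hν₀, fun ν hν0 hν1 => ?_⟩
  -- no element of sign `s` in a set which is rare
  have key : ∀ s : ℤ, (s = 1 ∨ s = -1) → ∀ S : Set ℤ, Invariant S → ∀ ψ : ℕ → ℝ, Tendsto ψ atTop (𝓝 0) →
      (∃ᶠ X : ℕ in atTop, ∃ P : Polynomial ℝ, P.natDegree ≤ k ∧ P.coeff k = α ∧
        (count s P ((X : ℝ) ^ (-ν)) S X : ℝ) ≤ ψ X * (X : ℝ) ^ (1 - ν)) → ∀ x ∈ S, ¬ 0 < s * x := by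
    intro s hs S hS ψ hψ h x hx hx0
    obtain ⟨δ, -, -, hδ⟩ := dens_side (d := 1) odd_one (by norm_num) hs (inv_of hS)
    have hpos := Pool.Agent.H499R2.ND.one_pos hs (inv_of hS) hx hx0 hδ
    obtain ⟨X₀, -, hX₀⟩ := H ν hν0 hν1 s hs (δ / 4) (by positivity)
    have h2 : ∀ᶠ X : ℕ in atTop, ψ X < δ / 4 := hψ.eventually (gt_mem_nhds (by positivity))
    obtain ⟨X, ⟨P, hP, hPc, hX⟩, hX1, hX2, hX3⟩ :=
      (h.and_eventually (h2.and ((eventually_ge_atTop X₀).and (eventually_ge_atTop 1)))).exists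
    have h3 := (abs_le.1 (hX₀ S hS δ hδ P hP hPc X hX2)).1
    have h4 : (0 : ℝ) < X := by exact_mod_cast hX3
    have h5 : (0 : ℝ) < (X : ℝ) ^ (1 - ν) := by positivity
    have h6 : ψ X * (X : ℝ) ^ (1 - ν) ≤ δ / 4 * (X : ℝ) ^ (1 - ν) := mul_le_mul_of_nonneg_right hX1.le h5.le
    have h7 : 0 < δ * (X : ℝ) ^ (1 - ν) := by positivity
    linarith
  refine ⟨?_, ?_, ?_⟩
  · intro s hs ε hε
    obtain ⟨X₀, -, hX₀⟩ := H ν hν0 hν1 s hs ε hε
    refine ⟨X₀, fun S hS => ?_⟩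
    obtain ⟨δ, -, -, hδ⟩ := dens_side (d := 1) odd_one (by norm_num) hs (inv_of hS)
    refine ⟨δ, HD_ncard hs hδ, ?_, fun P hP hPc X hX => hX₀ S hS δ hδ P hP hPc X hX⟩
    rintro ⟨x, hx, hx0⟩
    exact Pool.Agent.H499R2.ND.one_pos hs (inv_of hS) hx hx0 hδ
  · intro s hs S hS ψ hψ h x hx
    by_contra hcon
    exact key s hs Sᶜ (fun x => not_congr (hS x)) ψ hψ h x hcon hx
  · intro ψ hψ h x
    by_contra hcon
    rcases lt_trichotomy x 0 with hx | hx | hx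
    · exact key (-1) (Or.inr rfl) _ inv_not_reaches ψ hψ (h (-1) (Or.inr rfl)) x hcon (by linarith)
    · exact hcon ⟨0, by rw [hx]; decide⟩
    · exact key 1 (Or.inl rfl) _ inv_not_reaches ψ hψ (h 1 (Or.inl rfl)) x hcon (by linarith)

end Pool.Agent.Results.MP_d02c56_nt.PolynomialsModuloOne
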