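import Pool.Agent.Y965.SI.Ene

set_option autoImplicit false

/-!
# Sets invariant under the Collatz map are irregular in short intervals

Let `S` be a set of integers invariant under the Collatz map and `s = ± 1`, and suppose that the natural
density of `S` among the integers of sign `s` is not `0` or `1`. Then at every scale `H ≤ N ^ θ`, `θ < 1`,
the number of members of `S` among `s (n + 1), …, s (n + H)` differs from `δ H` by at least `c H` for a
positive proportion (logarithmic density) of the `n ≤ N`, for every `δ`. Hence the counting function of `S`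
has no power saving error term, unless `S` contains all integers of sign `s` or none of them, and the
conjecture is equivalent to such an error term for the integers that reach the known cycles.

Method. Fix a partition of the scale `[A, 2 A)` into `A ^ (1 - θ)` cells of equal relative length, and
consider the averages `u(A)` of `f = 1_S - δ` over the odd integers of the cells. The trajectories of
length `k` carry the average over a cell at `A` to the averages over cells at `A 3 ^ p / 2 ^ k`, with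
binomial weights. Going down to the scale where the cells contain a bounded number of integers, where the
averages have an energy bounded below, one needs that the passage from one level to the next loses little
energy. Integers `x`, `y` of the same cell whose trajectories coalesce soon have `f x = f y`; such pairs
shift the levels by a factor `2`, so the averages over `M` consecutive levels are correlated, and the
operator (a convolution on the levels and cells) loses only `O(1 / M ^ 2)`, `M ^ 2 ≈ log A`.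
-/

namespace Pool.Agent.Results.MP_d02c56_nt.ShortIntervals

open Filter Topology

/-- The Collatz map on the integers. -/
def C (x : ℤ) : ℤ := if x % 2 = 0 then x / 2 else 3 * x + 1

/-- `S` is invariant under the Collatz map and its inverse. -/
def Invariant (S : Set ℤ) : Prop := ∀ x : ℤ, x ∈ S ↔ C x ∈ S

/-- The number of the `n` in `[1, x]` with `s n ∈ S`. -/
noncomputable def count (s : ℤ) (S : Set ℤ) (x : ℕ) : ℕ := {n : ℕ | 1 ≤ n ∧ n ≤ x ∧ s * n ∈ S}.ncard

/-- Among the integers of sign `s` the set `S` has natural density `D`. -/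
def HasDensity (s : ℤ) (S : Set ℤ) (D : ℝ) : Prop :=
  Tendsto (fun x : ℕ => (count s S x : ℝ) / x) atTop (𝓝 D)

/-- The number of members of `S` among the `H` integers `s (n + 1), …, s (n + H)`. -/
noncomputable def window (s : ℤ) (S : Set ℤ) (n H : ℕ) : ℕ :=
  {h : ℕ | 1 ≤ h ∧ h ≤ H ∧ s * ((n : ℤ) + h) ∈ S}.ncard

/-- The integers whose trajectory passes through `a`. -/
def Basin (a : ℤ) : Set ℤ := {x | ∃ k : ℕ, C^[k] x = a}

/-- The union of the five known cycles. -/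
def Known : Finset ℤ := {1, 4, 2, -1, -2, -5, -14, -7, -20, -10, -17, -50, -25, -74, -37, -110,
  -55, -164, -82, -41, -122, -61, -182, -91, -272, -136, -68, -34, 0}

/-- The trajectory of `x` reaches one of the five known cycles. -/
def Reaches (x : ℤ) : Prop := ∃ k : ℕ, C^[k] x ∈ Known

open Pool.Agent.H499R2.ND Pool.Agent.W41 Pool.Agent.Y965.SI Finset

theorem inv_of {S : Set ℤ} (hS : Invariant S) : Inv 1 S := by
  intro x
  unfold Td
  by_cases h : x % 2 = 0
  · rw [if_pos h, hS x]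
    unfold C
    rw [if_pos h]
  · rw [if_neg h, hS x, hS (C x)]
    have h1 : C (C x) = (3 * x + 1) / 2 := by
      unfold C
      rw [if_neg h, if_pos (by omega)]
    rw [h1]

theorem compl_inv {S : Set ℤ} (hS : Invariant S) : Invariant Sᶜ := fun x => not_congr (hS x)

theorem count_cF (s : ℤ) (S : Set ℤ) (x : ℕ) : count s S x = cF s S x := by
  classical
  unfold count cF
  have e : {n : ℕ | 1 ≤ n ∧ n ≤ x ∧ s * n ∈ S} = ((Icc 1 x).filter fun n : ℕ => s * (n : ℤ) ∈ S : Finset ℕ) := by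
    ext n
    simp only [Set.mem_ofPred_eq, coe_filter, mem_Icc, and_assoc]
  rw [e, Set.ncard_coe_finset]

theorem HD_of {s : ℤ} (hs : s = 1 ∨ s = -1) {S : Set ℤ} (hS : Invariant S) {D : ℝ} (hD : HasDensity s S D) :
    HD s S D := by
  obtain ⟨D', -, -, hD'⟩ := dens_side (d := 1) odd_one (by norm_num) hs (inv_of hS)
  have h1 := cF_tendsto hs hD'
  have h2 : Tendsto (fun x : ℕ => (cF s S x : ℝ) / x) atTop (𝓝 D) := by
    refine Tendsto.congr (fun x => ?_) hD
    rw [count_cF]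
  rw [tendsto_nhds_unique h2 h1]
  exact hD'

theorem window_ind (s : ℤ) (S : Set ℤ) (n H : ℕ) : (window s S n H : ℝ) = ∑ h ∈ Icc 1 H, ind s S ((n : ℤ) + h) := by
  classical
  unfold window ind
  have e : {h : ℕ | 1 ≤ h ∧ h ≤ H ∧ s * ((n : ℤ) + h) ∈ S} =
      ((Icc 1 H).filter fun h : ℕ => s * ((n : ℤ) + h) ∈ S : Finset ℕ) := by
    ext h
    simp only [Set.mem_ofPred_eq, coe_filter, mem_Icc, and_assoc]
  rw [e, Set.ncard_coe_finset, sum_boole]

theorem window_count (s : ℤ) (S : Set ℤ) (n H : ℕ) : (window s S n H : ℝ) = count s S (n + H) - count s S n := by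
  classical
  rw [window_ind, count_cF, count_cF]
  unfold cF ind
  rw [card_filter, card_filter]
  push_cast
  have e : Icc 1 (n + H) = Icc 1 n ∪ Icc (n + 1) (n + H) := by
    ext m; rw [mem_union, mem_Icc, mem_Icc, mem_Icc]; omega
  have hd : Disjoint (Icc 1 n) (Icc (n + 1) (n + H)) := by
    rw [Finset.disjoint_left]
    intro m hm hm'
    rw [mem_Icc] at hm hm'
    omega
  rw [e, sum_union hd, add_sub_cancel_left]
  refine sum_bij' (fun h _ => n + h) (fun m _ => m - n) ?_ ?_ ?_ ?_ ?_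
  · intro h hh; rw [mem_Icc] at hh ⊢; omega
  · intro h hh; rw [mem_Icc] at hh ⊢; omega
  · intro h _; omega
  · intro m hm; rw [mem_Icc] at hm; omega
  · intro h _; push_cast; rfl

/-- irregularity in short intervals, both sides -/
theorem irregular {θ δ₁ : ℝ} (hθ0 : 0 < θ) (hθ1 : θ < 1) (hδ₁ : 0 < δ₁) :
    ∃ c : ℝ, 0 < c ∧ ∃ N₀ : ℕ, ∀ s : ℤ, (s = 1 ∨ s = -1) → ∀ S : Set ℤ, Invariant S → ∀ D : ℝ, HasDensity s S D →
      δ₁ ≤ D → D ≤ 1 - δ₁ → ∀ N : ℕ, N₀ ≤ N → ∀ H : ℕ, 1 ≤ H → (H : ℝ) ≤ (N : ℝ) ^ θ → ∀ δ : ℝ,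
      c * Real.log N ≤ ∑ n ∈ (Finset.Icc 1 N).filter
        (fun n : ℕ => c * H ≤ |(window s S n H : ℝ) - δ * H|), 1 / (n : ℝ) := by
  obtain ⟨c1, hc1, N1, H1⟩ := short (s := 1) (Or.inl rfl) hθ0 hθ1 hδ₁
  obtain ⟨c2, hc2, N2, H2⟩ := short (s := -1) (Or.inr rfl) hθ0 hθ1 hδ₁
  have key : ∀ s : ℤ, (s = 1 ∨ s = -1) → ∃ c' : ℝ, min c1 c2 ≤ c' ∧ ∀ S : Set ℤ, Inv 1 S → ∀ D : ℝ, HD s S D →
      δ₁ ≤ D → D ≤ 1 - δ₁ → ∀ N : ℕ, max N1 N2 ≤ N → ∀ H : ℕ, 1 ≤ H → (H : ℝ) ≤ (N : ℝ) ^ θ → ∀ δ : ℝ,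
      c' * Real.log N ≤ ∑ x ∈ (Ico (1 : ℤ) N).filter
        (fun x : ℤ => c' * H ≤ |∑ h ∈ Icc 1 H, ind s S (x + h) - δ * H|), 1 / (x : ℝ) := by
    rintro s (rfl | rfl)
    · exact ⟨c1, min_le_left _ _, fun S hS D hD h1 h2 N hN => H1 S hS D hD h1 h2 N ((le_max_left _ _).trans hN)⟩
    · exact ⟨c2, min_le_right _ _, fun S hS D hD h1 h2 N hN => H2 S hS D hD h1 h2 N ((le_max_right _ _).trans hN)⟩
  refine ⟨min c1 c2, lt_min hc1 hc2, max N1 N2, ?_⟩
  intro s hs S hS D hD hD1 hD2 N hN H hH hHN δ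
  obtain ⟨c', hc', h1⟩ := key s hs
  have h2 := h1 S (inv_of hS) D (HD_of hs hS hD) hD1 hD2 N hN H hH hHN δ
  have h3 : min c1 c2 * Real.log N ≤ c' * Real.log N :=
    mul_le_mul_of_nonneg_right hc' (Real.log_natCast_nonneg N)
  refine (h3.trans h2).trans ?_
  have h4 : ∑ x ∈ (Ico (1 : ℤ) N).filter (fun x : ℤ => c' * H ≤ |∑ h ∈ Icc 1 H, ind s S (x + h) - δ * H|), 1 / (x : ℝ)
      = ∑ n ∈ (Finset.Ico 1 N).filter (fun n : ℕ => c' * H ≤ |(window s S n H : ℝ) - δ * H|), 1 / (n : ℝ) := by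
    rw [sum_filter, sum_filter]
    refine sum_bij' (fun x _ => x.toNat) (fun m _ => (m : ℤ)) ?_ ?_ ?_ ?_ ?_
    · intro x hx; rw [mem_Ico] at hx ⊢; omega
    · intro m hm; rw [mem_Ico] at hm ⊢; omega
    · intro x hx; rw [mem_Ico] at hx; omega
    · intro m _; simp
    · intro x hx
      rw [mem_Ico] at hx
      have e : ((x.toNat : ℕ) : ℤ) = x := by omega
      have e2 : ((x.toNat : ℕ) : ℝ) = x := by exact_mod_cast e
      rw [window_ind, e, e2]
  rw [h4]
  apply sum_le_sum_of_subset_of_nonneg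
  · intro n hn
    rw [mem_filter, mem_Ico] at hn
    rw [mem_filter, mem_Icc]
    refine ⟨⟨hn.1.1, hn.1.2.le⟩, le_trans ?_ hn.2⟩
    exact mul_le_mul_of_nonneg_right hc' (Nat.cast_nonneg H)
  · intro n _ _
    positivity

/-- no power saving, densities strictly between `0` and `1` -/
theorem discrepancy {s : ℤ} (hs : s = 1 ∨ s = -1) {S : Set ℤ} (hS : Invariant S) {D : ℝ} (hD : HasDensity s S D)
    (hD0 : 0 < D) (hD1 : D < 1) {ε : ℝ} (hε : 0 < ε) :
    ∀ᶠ X : ℕ in atTop, ∀ δ : ℝ, ∃ x : ℕ, x ≤ X ∧ (X : ℝ) ^ (1 - ε) < |(count s S x : ℝ) - δ * x| := by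
  set ε' : ℝ := min ε (1 / 2) with hε'
  have hε'0 : 0 < ε' := lt_min hε (by norm_num)
  have hε'1 : ε' ≤ 1 / 2 := min_le_right _ _
  set θ : ℝ := 1 - ε' / 2 with hθ
  have hθ0 : 0 < θ := by rw [hθ]; linarith
  have hθ1 : θ < 1 := by rw [hθ]; linarith
  obtain ⟨c, hc, N₀, H1⟩ := irregular hθ0 hθ1 (show 0 < min D (1 - D) from lt_min hD0 (by linarith))
  have hlim : Tendsto (fun X : ℕ => (X : ℝ) ^ (ε' / 2)) atTop atTop :=
    (tendsto_rpow_atTop (by positivity)).comp tendsto_natCast_atTop_atTop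
  filter_upwards [hlim.eventually_ge_atTop (17 / c), eventually_ge_atTop (2 * N₀), eventually_ge_atTop 8] with X h1 h2 h3
  intro δ
  by_contra hcon
  push Not at hcon
  set N : ℕ := X / 2 with hN
  have hN0 : N₀ ≤ N := by omega
  have hN4 : 4 ≤ N := by omega
  have hNR : (4 : ℝ) ≤ N := by exact_mod_cast hN4
  have hNX : (N : ℝ) ≤ X := by
    have : N ≤ X := by omega
    exact_mod_cast this
  have hXN : (X : ℝ) ≤ 4 * N := by
    have : X ≤ 4 * N := by omega
    exact_mod_cast this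
  have hX0 : (0 : ℝ) < X := by linarith
  set H : ℕ := ⌊(N : ℝ) ^ θ⌋₊ with hH
  have hNθ : (2 : ℝ) ≤ (N : ℝ) ^ θ := by
    have e : (2 : ℝ) = 4 ^ ((1 : ℝ) / 2) := by
      have h4 : (4 : ℝ) = 2 ^ (2 : ℝ) := by norm_num
      rw [h4, ← Real.rpow_mul (by norm_num)]; norm_num
    rw [e]
    calc (4 : ℝ) ^ ((1 : ℝ) / 2) ≤ 4 ^ θ := Real.rpow_le_rpow_of_exponent_le (by norm_num) (by rw [hθ]; linarith)
      _ ≤ (N : ℝ) ^ θ := Real.rpow_le_rpow (by norm_num) hNR hθ0.le
  have hH1 : (N : ℝ) ^ θ / 2 ≤ H := by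
    have := Nat.lt_floor_add_one ((N : ℝ) ^ θ)
    rw [← hH] at this; linarith
  have hH2 : (H : ℝ) ≤ (N : ℝ) ^ θ := Nat.floor_le (by positivity)
  have hHone : 1 ≤ H := by
    have : (1 : ℝ) ≤ H := by linarith
    exact_mod_cast this
  have hHN : H ≤ N := by
    have : (H : ℝ) ≤ N := by
      refine hH2.trans ?_
      calc (N : ℝ) ^ θ ≤ (N : ℝ) ^ (1 : ℝ) := Real.rpow_le_rpow_of_exponent_le (by linarith) hθ1.le
        _ = N := Real.rpow_one _
    exact_mod_cast this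
  have h4 := H1 s hs S hS D hD (min_le_left _ _) (by linarith [min_le_right D (1 - D)]) N hN0 H hHone hH2 δ
  have h5 : 0 < c * Real.log N := mul_pos hc (Real.log_pos (by linarith))
  obtain ⟨n, hn⟩ : ((Finset.Icc 1 N).filter (fun n : ℕ => c * H ≤ |(window s S n H : ℝ) - δ * H|)).Nonempty := by
    rw [Finset.nonempty_iff_ne_empty]
    intro he
    rw [he, sum_empty] at h4
    linarith
  rw [mem_filter, mem_Icc] at hn
  obtain ⟨⟨hn1, hn2⟩, hn3⟩ := hn
  have g1 := hcon n (by omega)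
  have g2 := hcon (n + H) (by omega)
  rw [window_count] at hn3
  have g3 : c * H ≤ 2 * (X : ℝ) ^ (1 - ε) := by
    refine hn3.trans ?_
    have e : (count s S (n + H) : ℝ) - count s S n - δ * H
        = ((count s S (n + H) : ℝ) - δ * ((n + H : ℕ) : ℝ)) - (count s S n - δ * n) := by push_cast; ring
    rw [e]
    have := abs_sub ((count s S (n + H) : ℝ) - δ * ((n + H : ℕ) : ℝ)) (count s S n - δ * n)
    linarith
  have g4 : (X : ℝ) ^ (1 - ε) ≤ (X : ℝ) ^ (1 - ε') := by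
    apply Real.rpow_le_rpow_of_exponent_le (by linarith)
    linarith [min_le_left ε (1 / 2)]
  have g5 : (X : ℝ) ^ θ ≤ 4 * (N : ℝ) ^ θ := by
    calc (X : ℝ) ^ θ ≤ (4 * (N : ℝ)) ^ θ := Real.rpow_le_rpow hX0.le hXN hθ0.le
      _ = 4 ^ θ * (N : ℝ) ^ θ := Real.mul_rpow (by norm_num) (by positivity)
      _ ≤ 4 ^ (1 : ℝ) * (N : ℝ) ^ θ := by
          apply mul_le_mul_of_nonneg_right _ (by positivity)
          exact Real.rpow_le_rpow_of_exponent_le (by norm_num) hθ1.le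
      _ = 4 * (N : ℝ) ^ θ := by rw [Real.rpow_one]
  have g6 : (X : ℝ) ^ θ = (X : ℝ) ^ (1 - ε') * (X : ℝ) ^ (ε' / 2) := by
    rw [← Real.rpow_add hX0]; congr 1; rw [hθ]; ring
  have g7 : c * ((X : ℝ) ^ (1 - ε') * (X : ℝ) ^ (ε' / 2)) ≤ 16 * (X : ℝ) ^ (1 - ε') := by
    rw [← g6]
    have k1 : c * (X : ℝ) ^ θ ≤ c * (4 * (2 * H)) := by
      apply mul_le_mul_of_nonneg_left _ hc.le
      linarith
    linarith
  have hp : 0 < (X : ℝ) ^ (1 - ε') := by positivity
  have g8 : 17 ≤ c * (X : ℝ) ^ (ε' / 2) := by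
    rw [div_le_iff₀ hc] at h1
    linarith
  have g9 := mul_le_mul_of_nonneg_left g8 hp.le
  linarith

/-- no power saving -/
theorem no_saving {s : ℤ} (hs : s = 1 ∨ s = -1) {S : Set ℤ} (hS : Invariant S) (h1 : ∃ x ∈ S, 0 < s * x)
    (h2 : ∃ x ∉ S, 0 < s * x) {ε : ℝ} (hε : 0 < ε) :
    ∀ᶠ X : ℕ in atTop, ∀ δ : ℝ, ∃ x : ℕ, x ≤ X ∧ (X : ℝ) ^ (1 - ε) < |(count s S x : ℝ) - δ * x| := by
  obtain ⟨D, -, -, hD⟩ := dens_side (d := 1) odd_one (by norm_num) hs (inv_of hS)
  obtain ⟨x, hx, hx0⟩ := h1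
  obtain ⟨y, hy, hy0⟩ := h2
  have hD0 := one_pos hs (inv_of hS) hx hx0 hD
  have hD1 := one_lt hs (inv_of hS) hy hy0 hD
  have hD' : HasDensity s S D := by
    refine Tendsto.congr (fun x => ?_) (cF_tendsto hs hD)
    rw [count_cF]
  exact discrepancy hs hS hD' hD0 hD1 hε

theorem basin_inv {a : ℤ} {k : ℕ} (hk : 1 ≤ k) (ha : C^[k] a = a) : Invariant (Basin a) := by
  intro x
  constructor
  · rintro ⟨j, hj⟩
    rcases j with _ | j
    · have hx : x = a := hj
      obtain ⟨m, rfl⟩ : ∃ m, k = m + 1 := ⟨k - 1, by omega⟩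
      exact ⟨m, by rw [hx, ← Function.iterate_succ_apply]; exact ha⟩
    · exact ⟨j, by rwa [Function.iterate_succ_apply] at hj⟩
  · rintro ⟨j, hj⟩
    exact ⟨j + 1, by rwa [Function.iterate_succ_apply]⟩

/-- the trajectory of `-1` does not meet `-5`, `-17` -/
theorem orbit_neg_one (j : ℕ) : C^[j] (-1) = -1 ∨ C^[j] (-1) = -2 := by
  induction j with
  | zero => left; rfl
  | succ j ih =>
    rw [Function.iterate_succ_apply']
    rcases ih with h | h <;> rw [h]
    · right; decide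
    · left; decide

theorem orbit_neg_five (j : ℕ) : C^[j] (-5) ∈ ({-5, -14, -7, -20, -10} : Finset ℤ) := by
  induction j with
  | zero => decide
  | succ j ih =>
    rw [Function.iterate_succ_apply']
    generalize C^[j] (-5) = y at ih
    fin_cases ih <;> decide

theorem basins {a : ℤ} (ha : a = -1 ∨ a = -5 ∨ a = -17) : Invariant (Basin a) ∧ (∃ x ∈ Basin a, 0 < (-1) * x) ∧
    ∃ x ∉ Basin a, 0 < (-1) * x := by
  rcases ha with rfl | rfl | rfl
  · refine ⟨basin_inv (k := 2) (by norm_num) (by decide), ⟨-1, ⟨0, rfl⟩, by norm_num⟩, -5, ?_, by norm_num⟩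
    rintro ⟨j, hj⟩
    have := orbit_neg_five j
    rw [hj] at this
    revert this
    decide
  · refine ⟨basin_inv (k := 5) (by norm_num) (by decide), ⟨-5, ⟨0, rfl⟩, by norm_num⟩, -1, ?_, by norm_num⟩
    rintro ⟨j, hj⟩
    rcases orbit_neg_one j with h | h <;> rw [h] at hj <;> norm_num at hj
  · refine ⟨basin_inv (k := 18) (by norm_num) (by decide), ⟨-17, ⟨0, rfl⟩, by norm_num⟩, -1, ?_, by norm_num⟩
    rintro ⟨j, hj⟩
    rcases orbit_neg_one j with h | h <;> rw [h] at hj <;> norm_num at hj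

theorem inv_reaches : Invariant {x | Reaches x} := by
  intro x
  constructor
  · rintro ⟨k, hk⟩
    rcases k with _ | k
    · refine ⟨0, ?_⟩
      have hk' : x ∈ Known := hk
      show C x ∈ Known
      fin_cases hk' <;> decide
    · exact ⟨k, by rwa [Function.iterate_succ_apply] at hk⟩
  · rintro ⟨k, hk⟩
    exact ⟨k + 1, by rwa [Function.iterate_succ_apply]⟩

theorem count_all (s : ℤ) {S : Set ℤ} (h : ∀ x : ℤ, 0 < s * x → x ∈ S) (hs : s = 1 ∨ s = -1) (x : ℕ) :
    count s S x = x := by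
  unfold count
  have e : {n : ℕ | 1 ≤ n ∧ n ≤ x ∧ s * (n : ℤ) ∈ S} = (Icc 1 x : Finset ℕ) := by
    ext n
    simp only [Set.mem_ofPred_eq, coe_Icc, Set.mem_Icc]
    constructor
    · rintro ⟨h1, h2, -⟩; exact ⟨h1, h2⟩
    · rintro ⟨h1, h2⟩
      refine ⟨h1, h2, h _ ?_⟩
      rw [s_mul hs]
      exact_mod_cast h1
  rw [e, Set.ncard_coe_finset, Nat.card_Icc, Nat.add_sub_cancel]

/-- the equivalence on one side -/
theorem equiv_side {s : ℤ} (hs : s = 1 ∨ s = -1) : (∀ x : ℤ, 0 < s * x → Reaches x) ↔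
    ∃ ε : ℝ, 0 < ε ∧ ∃ᶠ X : ℕ in atTop, ∃ δ : ℝ, ∀ x : ℕ, x ≤ X →
      |(count s {y | Reaches y} x : ℝ) - δ * x| ≤ (X : ℝ) ^ (1 - ε) := by
  constructor
  · intro h
    refine ⟨1, one_pos, Eventually.frequently (Eventually.of_forall fun X => ⟨1, fun x _ => ?_⟩)⟩
    rw [count_all s (S := {y | Reaches y}) h hs]
    simp
  · rintro ⟨ε, hε, hfr⟩
    by_contra hcon
    push Not at hcon
    obtain ⟨y, hy0, hy⟩ := hcon
    have h1 : ∃ x ∈ {y | Reaches y}, 0 < s * x := by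
      rcases hs with rfl | rfl
      · exact ⟨1, ⟨0, by decide⟩, by norm_num⟩
      · exact ⟨-1, ⟨0, by decide⟩, by norm_num⟩
    have h2 := no_saving hs inv_reaches h1 ⟨y, hy, hy0⟩ hε
    obtain ⟨X, ⟨δ, hδ⟩, h3⟩ := (hfr.and_eventually h2).exists
    obtain ⟨x, hx, hx2⟩ := h3 δ
    exact absurd (hδ x hx) (not_le.2 hx2)

/-- (1) Let `0 < θ < 1` and `δ₁ > 0`. For every invariant set `S` whose density `D` among the integers of
sign `s` satisfies `δ₁ ≤ D ≤ 1 - δ₁`, for all large `N`, all `H ≤ N ^ θ` and all `δ`, the number of members of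
`S` among `s (n + 1), …, s (n + H)` differs from `δ H` by at least `c H` for a positive proportion of the
`n ≤ N`, in the sense of logarithmic density; `c` and the bound for `N` depend only on `θ` and `δ₁`.
(2) If an invariant set contains some but not all integers of sign `s`, then for every `ε > 0` and all
large `X` its counting function is on `[0, X]` not within `X ^ (1 - ε)` of any linear function.
(3) This holds for the set of integers that reach `-1`, that reach `-5` and that reach `-17`.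
(4) All integers of sign `s` reach the known cycles if and only if the counting function of those that
do has for some `ε > 0` and infinitely many `X` an error term `X ^ (1 - ε)` on `[0, X]`, and all
integers do if and only if this holds for both signs. -/
theorem result :
    (∀ θ δ₁ : ℝ, 0 < θ → θ < 1 → 0 < δ₁ → ∃ c : ℝ, 0 < c ∧ ∃ N₀ : ℕ, ∀ s : ℤ, (s = 1 ∨ s = -1) →
      ∀ S : Set ℤ, Invariant S → ∀ D : ℝ, HasDensity s S D → δ₁ ≤ D → D ≤ 1 - δ₁ →
      ∀ N : ℕ, N₀ ≤ N → ∀ H : ℕ, 1 ≤ H → (H : ℝ) ≤ (N : ℝ) ^ θ → ∀ δ : ℝ,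
      c * Real.log N ≤ ∑ n ∈ (Finset.Icc 1 N).filter
        (fun n : ℕ => c * H ≤ |(window s S n H : ℝ) - δ * H|), 1 / (n : ℝ)) ∧
    (∀ s : ℤ, (s = 1 ∨ s = -1) → ∀ S : Set ℤ, Invariant S → (∃ x ∈ S, 0 < s * x) → (∃ x ∉ S, 0 < s * x) →
      ∀ ε : ℝ, 0 < ε → ∀ᶠ X : ℕ in atTop, ∀ δ : ℝ, ∃ x : ℕ, x ≤ X ∧
        (X : ℝ) ^ (1 - ε) < |(count s S x : ℝ) - δ * x|) ∧
    (∀ a : ℤ, (a = -1 ∨ a = -5 ∨ a = -17) → ∀ ε : ℝ, 0 < ε → ∀ᶠ X : ℕ in atTop, ∀ δ : ℝ, ∃ x : ℕ, x ≤ X ∧
        (X : ℝ) ^ (1 - ε) < |(count (-1) (Basin a) x : ℝ) - δ * x|) ∧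
    (∀ s : ℤ, (s = 1 ∨ s = -1) → ((∀ x : ℤ, 0 < s * x → Reaches x) ↔
      ∃ ε : ℝ, 0 < ε ∧ ∃ᶠ X : ℕ in atTop, ∃ δ : ℝ, ∀ x : ℕ, x ≤ X →
        |(count s {y | Reaches y} x : ℝ) - δ * x| ≤ (X : ℝ) ^ (1 - ε))) ∧
    ((∀ x : ℤ, Reaches x) ↔ ∀ s : ℤ, (s = 1 ∨ s = -1) → ∃ ε : ℝ, 0 < ε ∧ ∃ᶠ X : ℕ in atTop, ∃ δ : ℝ,
      ∀ x : ℕ, x ≤ X → |(count s {y | Reaches y} x : ℝ) - δ * x| ≤ (X : ℝ) ^ (1 - ε)) := by
  refine ⟨fun θ δ₁ h0 h1 h2 => irregular h0 h1 h2, fun s hs S hS h1 h2 ε hε => no_saving hs hS h1 h2 hε,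
    fun a ha ε hε => ?_, fun s hs => equiv_side hs, ?_⟩
  · obtain ⟨h1, h2, h3⟩ := basins ha
    exact no_saving (Or.inr rfl) h1 h2 h3 hε
  · constructor
    · intro h s hs
      exact (equiv_side hs).1 fun x _ => h x
    · intro h x
      rcases lt_trichotomy x 0 with hx | hx | hx
      · exact (equiv_side (Or.inr rfl)).2 (h (-1) (Or.inr rfl)) x (by linarith)
      · exact ⟨0, by rw [hx]; decide⟩
      · exact (equiv_side (Or.inl rfl)).2 (h 1 (Or.inl rfl)) x (by linarith)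

end Pool.Agent.Results.MP_d02c56_nt.ShortIntervals
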