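import Mathlib
import Pool.Agent.Y967.CM.V
import Pool.Agent.Y967.CM.E
import Pool.Agent.Y967.CM.SP
import Pool.Agent.Y967.CM.SQ

set_option autoImplicit false

/-!
# Coalescence of Collatz trajectories along sparse sequences, with the sharp range

A sequence of integers `x n` is called spread if small sets of classes modulo `2 ^ t`, `2 ^ t ≤ N ^ δ`,
contain few of the `x n`, `n ≤ N`. The integers and the primes are spread; so are all polynomial values
of a spread sequence and the powers `a b ^ (e n)`, `b` odd, with spread exponents `e n`.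

For almost all `n` every trajectory which passes within distance `exp (W n)` of one of the integers
`3 ^ i x n`, `i ≤ W n`, merges with the trajectory of `x n` within `κ log n` steps, for every `κ > 0`;
here `W n = √ log n / (log log n) ^ 17`. The exponent `1 / 2` of `log n` is sharp, for the powers of three
as well as for the shifts: at distance `K √ log N` the trajectories have not merged.

Method. Whether all the affine neighbours of `x` have merged after `t` steps depends only on the class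
of `x` modulo `2 ^ t`. The classes for which this fails form a small proportion of all classes.
-/

namespace Pool.Agent.Results.MP_d02c56_nt.SparseCoalescence

open Filter Topology

/-- The Collatz map on the integers. -/
def C (x : ℤ) : ℤ := if x % 2 = 0 then x / 2 else 3 * x + 1

/-- The shortcut form of the Collatz map. -/
def T (x : ℤ) : ℤ := if x % 2 = 0 then x / 2 else (3 * x + 1) / 2

/-- The number of odd integers among `b, T b, ..., T^(k-1) b`. -/
def odds (b : ℤ) (k : ℕ) : ℕ := ((Finset.range k).filter fun j => T^[j] b % 2 = 1).card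

/-- The sequence `x` is spread modulo powers of two: there is `δ > 0` such that for every `ε > 0` there
are `η > 0` and `N₀` such that, for `N ≥ N₀` and `2 ^ t ≤ N ^ δ`, at most `η 2 ^ t` classes modulo `2 ^ t`
contain together at most `ε N` of the integers `x n`, `1 ≤ n ≤ N`. -/
def Spread (x : ℕ → ℤ) : Prop :=
  ∃ δ : ℝ, 0 < δ ∧ ∀ ε : ℝ, 0 < ε → ∃ η : ℝ, 0 < η ∧ ∃ N₀ : ℕ, ∀ N : ℕ, N₀ ≤ N →
    ∀ t : ℕ, (2 : ℝ) ^ t ≤ (N : ℝ) ^ δ → ∀ A : Finset ℤ, (A.card : ℝ) ≤ η * 2 ^ t →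
      (({n | 1 ≤ n ∧ n ≤ N ∧ ∃ a ∈ A, x n ≡ a [ZMOD 2 ^ t]} : Set ℕ).ncard : ℝ) ≤ ε * N

/-- `P n` holds for almost all `n`, in the sense of natural density. -/
def AlmostAll (P : ℕ → Prop) : Prop :=
  Tendsto (fun N : ℕ => (({n | 1 ≤ n ∧ n ≤ N ∧ ¬ P n} : Set ℕ).ncard : ℝ) / N) atTop (𝓝 0)

/-- The range: `W n = √ log n / (log log n) ^ 17`. -/
noncomputable def W (n : ℕ) : ℝ := √ (Real.log n) / (Real.log (Real.log n)) ^ 17

open Pool.Agent.H499R2.CO Pool.Agent.Y967.CM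

theorem ncard_eq (P : ℕ → Prop) [DecidablePred P] (N : ℕ) :
    ({n | 1 ≤ n ∧ n ≤ N ∧ P n} : Set ℕ).ncard = ((Finset.Icc 1 N).filter P).card := by
  rw [← Set.ncard_coe_finset]
  congr 1
  ext n
  simp only [Set.mem_ofPred_eq, Finset.coe_filter, Finset.mem_Icc, and_assoc]

theorem spread_iff (x : ℕ → ℤ) : Spread x ↔ Pool.Agent.Y967.CM.Spread x := by
  classical
  have key : ∀ (N t : ℕ) (A : Finset ℤ),
      (({n | 1 ≤ n ∧ n ≤ N ∧ ∃ a ∈ A, x n ≡ a [ZMOD 2 ^ t]} : Set ℕ).ncard : ℝ) =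
      (((Finset.Icc 1 N).filter (fun n => ∃ a ∈ A, x n ≡ a [ZMOD 2 ^ t])).card : ℝ) := by
    intro N t A
    rw [ncard_eq]
  unfold Spread Pool.Agent.Y967.CM.Spread
  simp only [key]

theorem T_eq : T = Tz 1 := rfl

theorem almost_of {P : ℕ → Prop} (h : ∀ ε : ℝ, 0 < ε → ∀ᶠ N : ℕ in atTop,
    (({n | 1 ≤ n ∧ n ≤ N ∧ ¬ P n} : Set ℕ).ncard : ℝ) ≤ ε * N) : AlmostAll P := by
  unfold AlmostAll
  rw [Metric.tendsto_nhds]
  intro ε hε
  filter_upwards [h (ε / 2) (by positivity), eventually_gt_atTop 0] with N h1 h2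
  have hN : (0 : ℝ) < N := by exact_mod_cast h2
  rw [Real.dist_eq, sub_zero, abs_of_nonneg (by positivity), div_lt_iff₀ hN]
  nlinarith

theorem AlmostAll.mono {P Q : ℕ → Prop} (h : AlmostAll P) (hPQ : ∀ n, P n → Q n) : AlmostAll Q := by
  classical
  unfold AlmostAll at *
  refine squeeze_zero (fun N => by positivity) (fun N => ?_) h
  apply div_le_div_of_nonneg_right _ (Nat.cast_nonneg N)
  rw [ncard_eq, ncard_eq]
  have : ((Finset.Icc 1 N).filter (fun n => ¬ Q n)) ⊆ ((Finset.Icc 1 N).filter (fun n => ¬ P n)) := by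
    intro n hn
    rw [Finset.mem_filter] at hn ⊢
    exact ⟨hn.1, fun h => hn.2 (hPQ n h)⟩
  exact_mod_cast Finset.card_le_card this

theorem odds_succ (b : ℤ) (k : ℕ) : odds b (k + 1) = (if b % 2 = 1 then 1 else 0) + odds (T b) k := by
  unfold odds
  rw [Finset.card_filter, Finset.card_filter, Finset.sum_range_succ']
  simp only [Function.iterate_succ_apply, Function.iterate_zero, id_eq]
  exact add_comm _ _

/-- The trajectories pass near multiples of powers of three. -/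
theorem pass (k : ℕ) : ∀ b y : ℤ, T^[k] (2 ^ k * y + b) = 3 ^ odds b k * y + T^[k] b := by
  induction k with
  | zero => intro b y; simp [odds]
  | succ k ih =>
    intro b y
    rw [Function.iterate_succ_apply, Function.iterate_succ_apply, odds_succ]
    have e2 : (2 : ℤ) ^ (k + 1) * y = 2 * (2 ^ k * y) := by rw [pow_succ]; ring
    rcases Int.emod_two_eq_zero_or_one b with h | h
    · have e : T (2 ^ (k + 1) * y + b) = 2 ^ k * y + T b := by
        unfold T
        rw [e2, if_pos (by omega), if_pos h]; omega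
      rw [e, ih, if_neg (by omega), zero_add]
    · have e : T (2 ^ (k + 1) * y + b) = 2 ^ k * (3 * y) + T b := by
        have e3 : (2 : ℤ) ^ k * (3 * y) = 3 * (2 ^ k * y) := by ring
        unfold T
        rw [e2, e3, if_neg (by omega), if_neg (by omega)]; omega
      rw [e, ih, if_pos h, pow_add, pow_one]; ring

theorem sq_one {b : ℤ} (h : b ^ 2 = 1) : b = 1 ∨ b = -1 := by
  have h2 : (b - 1) * (b + 1) = 0 := by linear_combination h
  rcases mul_eq_zero.1 h2 with h3 | h3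
  · left; omega
  · right; omega

theorem inv_T {S : Set ℤ} (hS : ∀ y, y ∈ S ↔ C y ∈ S) (x : ℤ) : x ∈ S ↔ T x ∈ S := by
  have hT : T x = C x ∨ T x = C (C x) := by
    unfold T C
    by_cases h : x % 2 = 0
    · left; simp [h]
    · right
      have h2 : (3 * x + 1) % 2 = 0 := by omega
      simp [h, h2]
  rcases hT with h | h
  · rw [h]; exact hS x
  · rw [h, ← hS, ← hS]

theorem inv_iter {S : Set ℤ} (hS : ∀ y, y ∈ S ↔ C y ∈ S) (j : ℕ) : ∀ x : ℤ, x ∈ S ↔ T^[j] x ∈ S := by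
  induction j with
  | zero => intro x; rfl
  | succ j ih => intro x; rw [Function.iterate_succ_apply, ← ih]; exact inv_T hS x

theorem main {x : ℕ → ℤ} (hx : Spread x) {κ : ℝ} (hκ : 0 < κ) :
    AlmostAll (fun n => ∀ (z : ℤ) (k i : ℕ), (i : ℝ) ≤ W n →
      |((T^[k] z - 3 ^ i * x n : ℤ) : ℝ)| ≤ Real.exp (W n) →
      T^[k + ⌊κ * Real.log n⌋₊] z = T^[⌊κ * Real.log n⌋₊] (x n)) := by
  classical
  obtain ⟨δ, hδ, h⟩ := ((spread_iff x).1 hx).spr
  have h1 : AlmostAll (fun n => ∀ (i : ℕ) (r : ℤ), (i : ℝ) ≤ W n → |(r : ℝ)| ≤ Real.exp (W n) →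
      T^[⌊κ * Real.log n⌋₊] (3 ^ i * x n + r) = T^[⌊κ * Real.log n⌋₊] (x n)) := by
    apply almost_of
    intro ε hε
    filter_upwards [all_forms hδ h hκ hε] with N hN
    rw [ncard_eq]
    refine le_trans (le_of_eq ?_) hN
    congr!
  refine h1.mono (fun n hn z k i hi hr => ?_)
  have e : T^[k] z = 3 ^ i * x n + (T^[k] z - 3 ^ i * x n) := by ring
  rw [add_comm k, Function.iterate_add_apply, e]
  exact hn i _ hi hr

theorem pass_minus (m : ℕ) : T^[m] (2 ^ m - 1) = 3 ^ m - 1 := by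
  have h1 : ∀ k : ℕ, T^[k] (-1) = -1 := by
    intro k
    induction k with
    | zero => rfl
    | succ k ih => rw [Function.iterate_succ_apply]; exact ih
  have h2 : ∀ k : ℕ, odds (-1) k = k := by
    intro k
    induction k with
    | zero => rfl
    | succ k ih =>
      rw [odds_succ]
      have : T (-1) = -1 := rfl
      rw [this, ih]
      norm_num
      ring
  have h3 := pass m (-1) 1
  rw [h1, h2, mul_one, mul_one] at h3
  exact h3

/-- (1) The sequences `n`, the primes (`Nat.nth Nat.Prime n`, counted from `n = 0`) are spread; if `x` is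
spread then so is `f (x n)` for every nonconstant polynomial `f` with integer coefficients, and if the
sequence of natural numbers `e` is spread then so is `a b ^ (e n)` for all `a ≠ 0` and odd `b ≠ 1, -1`.
Let `x` be spread and `κ > 0`.
(2) For every `ε > 0` there are `θ > 0` and `N₀` such that for `N ≥ N₀`, `i ≤ √ (θ log N)` and
`|r| ≤ N ^ θ` the trajectories of `3 ^ i x n + r` and `x n` are at the same point at time
`⌊κ log N⌋`, for all but `ε N` of the `n ≤ N`.
(3) For almost all `n`, if the trajectory of an integer `z` is at time `k` within distance `exp (W n)` of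
one of the integers `3 ^ i x n`, `i ≤ W n`, then at time `k + ⌊κ log n⌋` it is at the point where the
trajectory of `x n` is at time `⌊κ log n⌋`.
(4) For almost all `n`, every set of integers invariant under the Collatz map and its inverse contains
all or none of `x n` and the integers `2 ^ k 3 ^ i x n + b` for which `i` plus the number of odd terms
among the first `k` terms of the trajectory of `b` is at most `W n` and `|T^k b| ≤ exp (W n)`.
There is `κ₀ > 0` such that for every `ε > 0` there are `K` and `N₀` with, for all `N ≥ N₀`: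
(5) for every `i ≥ K √ log N` the trajectories of `3 ^ i x n` and `x n` are at different points at all
times `t ≤ κ₀ log N`, for all but `ε N` of the `n ≤ N`;
(6) for all but `ε N` of the `n ≤ N` there is `r ≤ exp (K √ log N)` such that the trajectories of
`x n + r` and `x n` are at different points at all times `t ≤ κ₀ log N`.
(7) For almost all primes `p = Nat.nth Nat.Prime n` and all `j ≤ W n`, every set of integers invariant
under the Collatz map and its inverse contains all or none of `2 ^ p - 1`, `2 ^ (p + j) - 1`, `3 ^ p` and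
`3 ^ (p + j)`. -/
theorem result :
    (Spread (fun n => (n : ℤ)) ∧ Spread (fun n => ((Nat.nth Nat.Prime n : ℕ) : ℤ)) ∧
      (∀ x : ℕ → ℤ, Spread x → ∀ f : Polynomial ℤ, 1 ≤ f.natDegree → Spread (fun n => f.eval (x n))) ∧
      (∀ e : ℕ → ℕ, Spread (fun n => (e n : ℤ)) → ∀ a b : ℤ, a ≠ 0 → b % 2 = 1 → b ≠ 1 → b ≠ -1 →
        Spread (fun n => a * b ^ e n))) ∧
    (∀ x : ℕ → ℤ, Spread x → ∀ κ : ℝ, 0 < κ →
      (∀ ε : ℝ, 0 < ε → ∃ θ : ℝ, 0 < θ ∧ ∃ N₀ : ℕ, ∀ N : ℕ, N₀ ≤ N → ∀ (i : ℕ) (r : ℤ),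
        (i : ℝ) ^ 2 ≤ θ * Real.log N → |(r : ℝ)| ≤ (N : ℝ) ^ θ →
        (({n | 1 ≤ n ∧ n ≤ N ∧
          T^[⌊κ * Real.log N⌋₊] (3 ^ i * x n + r) ≠ T^[⌊κ * Real.log N⌋₊] (x n)} : Set ℕ).ncard : ℝ) ≤ ε * N) ∧
      AlmostAll (fun n => ∀ (z : ℤ) (k i : ℕ), (i : ℝ) ≤ W n →
        |((T^[k] z - 3 ^ i * x n : ℤ) : ℝ)| ≤ Real.exp (W n) →
        T^[k + ⌊κ * Real.log n⌋₊] z = T^[⌊κ * Real.log n⌋₊] (x n)) ∧
      AlmostAll (fun n => ∀ S : Set ℤ, (∀ y, y ∈ S ↔ C y ∈ S) → ∀ (k i : ℕ) (b : ℤ),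
        (i : ℝ) + odds b k ≤ W n → |((T^[k] b : ℤ) : ℝ)| ≤ Real.exp (W n) →
        (2 ^ k * 3 ^ i * x n + b ∈ S ↔ x n ∈ S))) ∧
    (∀ x : ℕ → ℤ, Spread x → ∃ κ₀ : ℝ, 0 < κ₀ ∧ ∀ ε : ℝ, 0 < ε → ∃ K : ℝ, 0 < K ∧ ∃ N₀ : ℕ,
      ∀ N : ℕ, N₀ ≤ N →
      (∀ i : ℕ, K * √ (Real.log N) ≤ i →
        (({n | 1 ≤ n ∧ n ≤ N ∧ ∃ t : ℕ, (t : ℝ) ≤ κ₀ * Real.log N ∧
          T^[t] (3 ^ i * x n) = T^[t] (x n)} : Set ℕ).ncard : ℝ) ≤ ε * N) ∧
      (({n | 1 ≤ n ∧ n ≤ N ∧ ∀ r : ℕ, (r : ℝ) ≤ Real.exp (K * √ (Real.log N)) →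
          ∃ t : ℕ, (t : ℝ) ≤ κ₀ * Real.log N ∧ T^[t] (x n + r) = T^[t] (x n)} : Set ℕ).ncard : ℝ) ≤ ε * N) ∧
    AlmostAll (fun n => ∀ S : Set ℤ, (∀ y, y ∈ S ↔ C y ∈ S) → ∀ p j : ℕ, p = Nat.nth Nat.Prime n →
      (j : ℝ) ≤ W n → (((2 : ℤ) ^ (p + j) - 1 ∈ S ↔ (2 : ℤ) ^ p - 1 ∈ S) ∧
        ((2 : ℤ) ^ p - 1 ∈ S ↔ (3 : ℤ) ^ p ∈ S) ∧ ((3 : ℤ) ^ (p + j) ∈ S ↔ (3 : ℤ) ^ p ∈ S))) := by
  classical
  have hid : Spread (fun n => (n : ℤ)) := (spread_iff _).2 (spr_id.spread one_pos)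
  have hpr : Spread (fun n => ((Nat.nth Nat.Prime n : ℕ) : ℤ)) :=
    (spread_iff _).2 (spr_prime.spread (by norm_num))
  have hexp : ∀ e : ℕ → ℕ, Spread (fun n => (e n : ℤ)) → ∀ a b : ℤ, a ≠ 0 → b % 2 = 1 → b ≠ 1 → b ≠ -1 →
        Spread (fun n => a * b ^ e n) := by
    intro e he a b ha hb h1 h2
    have h3 : b ^ 2 ≠ 1 := by
      intro h
      rcases sq_one h with h | h
      · exact h1 h
      · exact h2 h
    obtain ⟨δ, hδ, h⟩ := ((spread_iff _).1 he).spr
    exact (spread_iff _).2 ((spr_exp h ha hb h3).spread hδ)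
  refine ⟨⟨hid, hpr, ?_, hexp⟩, fun x hx κ hκ => ⟨?_, main hx hκ, ?_⟩, fun x hx => ?_, ?_⟩
  · intro x hx f hf
    exact (spread_iff _).2 (((spread_iff x).1 hx).poly hf)
  · intro ε hε
    obtain ⟨δ, hδ, h⟩ := ((spread_iff x).1 hx).spr
    obtain ⟨θ, hθ, N₀, h1⟩ := pair_small hδ h hκ hε
    refine ⟨θ, hθ, N₀, fun N hN i r hi hr => ?_⟩
    have h2 := h1 N hN i r hi hr
    rw [ncard_eq]
    refine le_trans (le_of_eq ?_) h2
    congr!
  · refine (main hx one_pos).mono (fun n hn S hS k i b hb hr => ?_)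
    have e : (2 : ℤ) ^ k * 3 ^ i * x n + b = 2 ^ k * (3 ^ i * x n) + b := by ring
    have h1 : T^[k] (2 ^ k * 3 ^ i * x n + b) = 3 ^ (i + odds b k) * x n + T^[k] b := by
      rw [e, pass, pow_add]; ring
    have h2 := hn (2 ^ k * 3 ^ i * x n + b) k (i + odds b k) (by push_cast; exact hb) (by
      rw [h1, add_sub_cancel_left]; exact hr)
    rw [inv_iter hS _ (2 ^ k * 3 ^ i * x n + b), h2, ← inv_iter hS]
  · obtain ⟨δ, hδ, h⟩ := ((spread_iff x).1 hx).spr
    refine ⟨δ / 2, by positivity, fun ε hε => ?_⟩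
    obtain ⟨K1, hK1, N1, h1⟩ := far3 hδ h hε
    obtain ⟨K2, hK2, N2, h2⟩ := farr hδ h hε
    refine ⟨max K1 K2, lt_max_of_lt_left hK1, max N1 N2, fun N hN => ⟨fun i hi => ?_, ?_⟩⟩
    · have h3 := h1 N ((le_max_left _ _).trans hN) i (le_trans
        (mul_le_mul_of_nonneg_right (le_max_left _ _) (Real.sqrt_nonneg _)) hi)
      rw [ncard_eq]
      refine le_trans ?_ h3
      have h4 : ({n ∈ Finset.Icc 1 N | ∃ t : ℕ, (t : ℝ) ≤ δ / 2 * Real.log N ∧
          T^[t] (3 ^ i * x n) = T^[t] (x n)} : Finset ℕ) ⊆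
          {n ∈ Finset.Icc 1 N | ∃ t : ℕ, t ≤ ⌊δ / 2 * Real.log N⌋₊ ∧
            (Tz 1)^[t] (3 ^ i * x n) = (Tz 1)^[t] (x n)} := by
        intro n hn
        rw [Finset.mem_filter] at hn ⊢
        obtain ⟨hn1, t, ht, heq⟩ := hn
        exact ⟨hn1, t, Nat.le_floor ht, heq⟩
      exact_mod_cast Finset.card_le_card h4
    · have h3 := h2 N ((le_max_right _ _).trans hN)
      rw [ncard_eq]
      refine le_trans ?_ h3
      have h4 : ({n ∈ Finset.Icc 1 N | ∀ r : ℕ, (r : ℝ) ≤ Real.exp (max K1 K2 * √ (Real.log N)) →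
          ∃ t : ℕ, (t : ℝ) ≤ δ / 2 * Real.log N ∧ T^[t] (x n + r) = T^[t] (x n)} : Finset ℕ) ⊆
          {n ∈ Finset.Icc 1 N | ¬ ∃ r : ℕ, (r : ℝ) ≤ Real.exp (K2 * √ (Real.log N)) ∧
            ∀ t : ℕ, t ≤ ⌊δ / 2 * Real.log N⌋₊ → (Tz 1)^[t] (x n + r) ≠ (Tz 1)^[t] (x n)} := by
        intro n hn
        rw [Finset.mem_filter] at hn ⊢
        obtain ⟨hn1, hn2⟩ := hn
        refine ⟨hn1, ?_⟩
        rintro ⟨r, hr, h5⟩
        obtain ⟨t, ht, heq⟩ := hn2 r (hr.trans (Real.exp_le_exp.2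
          (mul_le_mul_of_nonneg_right (le_max_right _ _) (Real.sqrt_nonneg _))))
        exact h5 t (Nat.le_floor ht) heq
      exact_mod_cast Finset.card_le_card h4
  · have hx := hexp (fun n => Nat.nth Nat.Prime n) hpr 1 3 (by norm_num) (by norm_num) (by norm_num)
      (by norm_num)
    refine (main hx one_pos).mono (fun n hn S hS p j hp hj => ?_)
    simp only [one_mul, ← hp] at hn
    have hW : 0 ≤ W n := (Nat.cast_nonneg j).trans hj
    have hE : (1 : ℝ) ≤ Real.exp (W n) := Real.one_le_exp hW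
    have hM : ∀ l : ℕ, (l : ℝ) ≤ W n → ((2 : ℤ) ^ (p + l) - 1 ∈ S ↔ (3 : ℤ) ^ p ∈ S) := by
      intro l hl
      have h1 := hn (2 ^ (p + l) - 1) (p + l) l hl (by
        rw [pass_minus]
        have e : (3 : ℤ) ^ (p + l) - 1 - 3 ^ l * 3 ^ p = -1 := by rw [pow_add]; ring
        rw [e]
        push_cast
        rw [abs_neg, abs_one]
        exact hE)
      rw [inv_iter hS _ (2 ^ (p + l) - 1), h1, ← inv_iter hS]
    have h3 : (3 : ℤ) ^ (p + j) ∈ S ↔ (3 : ℤ) ^ p ∈ S := by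
      have h1 := hn (3 ^ (p + j)) 0 j hj (by
        have e : T^[0] ((3 : ℤ) ^ (p + j)) - 3 ^ j * 3 ^ p = 0 := by
          rw [Function.iterate_zero, id_eq, pow_add]; ring
        rw [e]
        push_cast
        rw [abs_zero]
        linarith)
      rw [inv_iter hS _ (3 ^ (p + j)), h1, ← inv_iter hS]
    have h0 := hM 0 (by rw [Nat.cast_zero]; exact hW)
    rw [add_zero] at h0
    exact ⟨(hM j hj).trans h0.symm, h0, h3⟩

end Pool.Agent.Results.MP_d02c56_nt.SparseCoalescence
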